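import Mathlib

set_option autoImplicit false
set_option maxHeartbeats 4000000

/-!
# The game Zombies and Survivors on a finite graph
-/

namespace Pool.Agent.Zomb

variable {V : Type} [Fintype V] [DecidableEq V]

open Classical in
/-- The neighbours of `z` that lie on a shortest path from `z` to `x`. -/
noncomputable def closer (G : SimpleGraph V) (x z : V) : Finset V :=
  Finset.univ.filter (fun v => G.Adj z v ∧ G.dist v x + 1 = G.dist z x)

/-- The probability that a zombie at `z` moves to `v` when the survivor is at `x`: uniform
distribution on `closer G x z`. -/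
noncomputable def step (G : SimpleGraph V) (x z v : V) : ℝ :=
  if v ∈ closer G x z then ((closer G x z).card : ℝ)⁻¹ else 0

/-- A survivor strategy against `k` zombies: it maps the history of all zombie positions (current
positions first, initial positions last) to the vertex where the survivor goes. -/
abbrev Strategy (V : Type) (k : ℕ) : Type := List (Fin k → V) → V

open Classical in
/-- The probability that a survivor who plays by `σ` survives the next `T` rounds when the history
is `h`, the zombies are at `z` and the survivor is at `x`.  In each round the zombies move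
independently, to `v i`; the survivor loses if some `v i` is `x`; otherwise the survivor goes to
`σ (v :: h)`, which has to be `x` or a neighbour of `x`, and loses if a zombie is there
(an illegal move counts as a loss). -/
noncomputable def surv (G : SimpleGraph V) {k : ℕ} (σ : Strategy V k) :
    ℕ → List (Fin k → V) → (Fin k → V) → V → ℝ
  | 0, _, _, _ => 1
  | T + 1, h, z, x => ∑ v : Fin k → V, (∏ i, step G x (z i) (v i)) *
      (if (∃ i, v i = x) ∨ ¬ (σ (v :: h) = x ∨ G.Adj x (σ (v :: h))) ∨ (∃ i, v i = σ (v :: h))
        then 0 else surv G σ T (v :: h) v (σ (v :: h)))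

open Classical in
/-- The probability that the survivor survives `T` rounds playing by `σ`, when the `k` zombies
start at independent uniformly distributed vertices and the survivor then starts at
`σ [z]` (a start on a zombie's vertex is a loss). -/
noncomputable def survProb (G : SimpleGraph V) {k : ℕ} (σ : Strategy V k) (T : ℕ) : ℝ :=
  (∑ z : Fin k → V, (if ∃ i, z i = σ [z] then 0 else surv G σ T [z] z (σ [z])))
    / (Fintype.card V : ℝ) ^ k

/-- `s_k(G)`: the supremum over all strategies of the probability never to be eaten (the limit,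
that is the infimum, over `T` of the probability to survive `T` rounds). -/
noncomputable def sVal (G : SimpleGraph V) (k : ℕ) : ℝ :=
  ⨆ σ : Strategy V k, ⨅ T : ℕ, survProb G σ T

/-- The zombie number: the least `k` with `s_k(G) ≤ 1/2`. -/
noncomputable def zombieNumber (G : SimpleGraph V) : ℕ := sInf {k : ℕ | sVal G k ≤ 1 / 2}

/-! ## basic estimates -/

lemma step_nonneg (G : SimpleGraph V) (x z v : V) : 0 ≤ step G x z v := by
  unfold step; split_ifs
  · positivity
  · exact le_rfl

lemma sum_step_mul (G : SimpleGraph V) (x z : V) (F : V → ℝ) :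
    ∑ v, step G x z v * F v = ((closer G x z).card : ℝ)⁻¹ * ∑ v ∈ closer G x z, F v := by
  unfold step
  simp only [ite_mul, zero_mul]
  rw [← Finset.sum_filter, Finset.filter_mem_eq_inter, Finset.univ_inter, Finset.mul_sum]

lemma sum_step_le (G : SimpleGraph V) (x z : V) : ∑ v, step G x z v ≤ 1 := by
  have h := sum_step_mul G x z (fun _ => 1)
  simp only [mul_one, Finset.sum_const, nsmul_eq_mul] at h
  rw [h]
  rcases Nat.eq_zero_or_pos (closer G x z).card with hc | hc
  · rw [hc]; simp
  · rw [inv_mul_cancel₀ (by positivity)]

/-- iterated sum over the lists of length `T` -/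
noncomputable def ps : ℕ → (List (Fin 5) → ℝ) → ℝ
  | 0, F => F []
  | T + 1, F => ∑ m : Fin 5, ps T (fun ms => F (m :: ms))

lemma ps_nonneg (T : ℕ) : ∀ F : List (Fin 5) → ℝ, (∀ ms, 0 ≤ F ms) → 0 ≤ ps T F := by
  induction T with
  | zero => intro F hF; exact hF _
  | succ T ih => intro F hF; exact Finset.sum_nonneg (fun m _ => ih _ (fun ms => hF _))

lemma ps_sum {ι : Type} (s : Finset ι) (T : ℕ) : ∀ F : ι → List (Fin 5) → ℝ,
    ps T (fun ms => ∑ i ∈ s, F i ms) = ∑ i ∈ s, ps T (F i) := by
  induction T with
  | zero => intro F; rfl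
  | succ T ih =>
    intro F
    simp only [ps]
    rw [Finset.sum_comm]
    exact Finset.sum_congr rfl (fun m _ => ih _)

lemma ps_mul (c : ℝ) (T : ℕ) : ∀ F : List (Fin 5) → ℝ,
    ps T (fun ms => c * F ms) = c * ps T F := by
  induction T with
  | zero => intro F; rfl
  | succ T ih =>
    intro F
    simp only [ps]
    rw [Finset.mul_sum]
    exact Finset.sum_congr rfl (fun m _ => ih _)

lemma ps_le (c : ℝ) (T : ℕ) : ∀ F : List (Fin 5) → ℝ,
    (∀ ms : List (Fin 5), ms.length = T → F ms ≤ c) → ps T F ≤ 5 ^ T * c := by
  induction T with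
  | zero => intro F hF; simpa [ps] using hF [] rfl
  | succ T ih =>
    intro F hF
    simp only [ps]
    calc ∑ m : Fin 5, ps T (fun ms => F (m :: ms)) ≤ ∑ _m : Fin 5, 5 ^ T * c :=
          Finset.sum_le_sum (fun m _ => ih _ (fun ms hms => hF _ (by simp [hms])))
      _ = 5 ^ (T + 1) * c := by
          simp only [Finset.sum_const, Finset.card_univ, Fintype.card_fin, nsmul_eq_mul]
          push_cast
          ring

/-- probability that a zombie at `z` misses a survivor who starts at `x` and makes the given moves -/
noncomputable def miss (G : SimpleGraph V) (act : V → Fin 5 → V) : V → List (Fin 5) → V → ℝ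
  | x, [], z => if z = x then 0 else 1
  | x, m :: ms, z => if z = x then 0 else
      ∑ v, step G x z v * (if v = x then 0 else miss G act (act x m) ms v)

lemma miss_bd (G : SimpleGraph V) (act : V → Fin 5 → V) (ms : List (Fin 5)) :
    ∀ x z, 0 ≤ miss G act x ms z ∧ miss G act x ms z ≤ 1 := by
  induction ms with
  | nil =>
    intro x z
    simp only [miss]
    split_ifs <;> norm_num
  | cons m ms ih =>
    intro x z
    simp only [miss]
    split_ifs with h
    · norm_num
    · have hb : ∀ v, 0 ≤ (if v = x then (0 : ℝ) else miss G act (act x m) ms v) ∧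
          (if v = x then (0 : ℝ) else miss G act (act x m) ms v) ≤ 1 := by
        intro v
        split_ifs
        · norm_num
        · exact ih _ _
      constructor
      · exact Finset.sum_nonneg (fun v _ => mul_nonneg (step_nonneg _ _ _ _) (hb v).1)
      · calc ∑ v, step G x z v * (if v = x then 0 else miss G act (act x m) ms v)
            ≤ ∑ v, step G x z v :=
              Finset.sum_le_sum (fun v _ => mul_le_of_le_one_right (step_nonneg _ _ _ _) (hb v).2)
          _ ≤ 1 := sum_step_le _ _ _

lemma surv_nonneg (G : SimpleGraph V) {k : ℕ} (σ : Strategy V k) (T : ℕ) :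
    ∀ h z x, 0 ≤ surv G σ T h z x := by
  induction T with
  | zero => intro h z x; simp [surv]
  | succ T ih =>
    intro h z x
    simp only [surv]
    refine Finset.sum_nonneg (fun v _ => mul_nonneg ?_ ?_)
    · exact Finset.prod_nonneg (fun i _ => step_nonneg _ _ _ _)
    · split_ifs
      · exact le_rfl
      · exact ih _ _ _

lemma surv_le (G : SimpleGraph V) (act : V → Fin 5 → V)
    (hact : ∀ x x', (x' = x ∨ G.Adj x x') → ∃ m, x' = act x m) {k : ℕ} (σ : Strategy V k) (T : ℕ) :
    ∀ h z x, (∀ i, z i ≠ x) → surv G σ T h z x ≤ ps T (fun ms => ∏ i, miss G act x ms (z i)) := by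
  classical
  induction T with
  | zero =>
    intro h z x hz
    simp [surv, ps, miss, hz]
  | succ T ih =>
    intro h z x hz
    simp only [surv, ps]
    have key : ∀ v : Fin k → V,
        (if (∃ i, v i = x) ∨ ¬ (σ (v :: h) = x ∨ G.Adj x (σ (v :: h))) ∨ (∃ i, v i = σ (v :: h))
          then 0 else surv G σ T (v :: h) v (σ (v :: h)))
        ≤ ∑ m : Fin 5, ps T (fun ms => ∏ i, (if v i = x then 0 else miss G act (act x m) ms (v i))) := by
      intro v
      have hnn : ∀ m : Fin 5, 0 ≤ ps T (fun ms => ∏ i, (if v i = x then 0 else miss G act (act x m) ms (v i))) := by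
        intro m
        refine ps_nonneg _ _ (fun ms => Finset.prod_nonneg (fun i _ => ?_))
        split_ifs
        · exact le_rfl
        · exact (miss_bd _ _ _ _ _).1
      split_ifs with hb
      · exact Finset.sum_nonneg (fun m _ => hnn m)
      · push Not at hb
        obtain ⟨hb1, hb2, hb3⟩ := hb
        obtain ⟨m, hm⟩ := hact x (σ (v :: h)) hb2
        refine le_trans (ih (v :: h) v (σ (v :: h)) hb3) ?_
        have e : ps T (fun ms => ∏ i, miss G act (σ (v :: h)) ms (v i))
            = ps T (fun ms => ∏ i, (if v i = x then 0 else miss G act (act x m) ms (v i))) := by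
          congr 1
          funext ms
          refine Finset.prod_congr rfl (fun i _ => ?_)
          rw [if_neg (hb1 i), hm]
        rw [e]
        exact Finset.single_le_sum (f := fun m => ps T (fun ms => ∏ i, (if v i = x then 0 else miss G act (act x m) ms (v i))))
          (fun m _ => hnn m) (Finset.mem_univ m)
    calc ∑ v : Fin k → V, (∏ i, step G x (z i) (v i)) *
          (if (∃ i, v i = x) ∨ ¬ (σ (v :: h) = x ∨ G.Adj x (σ (v :: h))) ∨ (∃ i, v i = σ (v :: h))
            then 0 else surv G σ T (v :: h) v (σ (v :: h)))
        ≤ ∑ v : Fin k → V, (∏ i, step G x (z i) (v i)) *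
          ∑ m : Fin 5, ps T (fun ms => ∏ i, (if v i = x then 0 else miss G act (act x m) ms (v i))) :=
          Finset.sum_le_sum (fun v _ => mul_le_mul_of_nonneg_left (key v)
            (Finset.prod_nonneg (fun i _ => step_nonneg _ _ _ _)))
      _ = ∑ m : Fin 5, ps T (fun ms => ∏ i, miss G act x (m :: ms) (z i)) := by
          simp only [Finset.mul_sum]
          rw [Finset.sum_comm]
          refine Finset.sum_congr rfl (fun m _ => ?_)
          simp only [← ps_mul]
          rw [← ps_sum]
          congr 1
          funext ms
          simp only [← Finset.prod_mul_distrib]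
          have := Finset.prod_univ_sum (fun _ : Fin k => (Finset.univ : Finset V))
            (fun i v => step G x (z i) v * (if v = x then 0 else miss G act (act x m) ms v))
          rw [Fintype.piFinset_univ] at this
          rw [← this]
          refine Finset.prod_congr rfl (fun i _ => ?_)
          simp only [miss, if_neg (hz i)]

/-- The union bound over the survivor's paths. -/
lemma survProb_le (G : SimpleGraph V) (act : V → Fin 5 → V)
    (hact : ∀ x x', (x' = x ∨ G.Adj x x') → ∃ m, x' = act x m) {k : ℕ} (σ : Strategy V k) (T : ℕ)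
    (B : ℝ) (hB : ∀ x (ms : List (Fin 5)), ms.length = T → ∑ z, miss G act x ms z ≤ B) :
    survProb G σ T ≤ (Fintype.card V : ℝ) * 5 ^ T * (B / Fintype.card V) ^ k := by
  classical
  unfold survProb
  rw [div_pow, mul_div_assoc']
  refine div_le_div_of_nonneg_right ?_ (by positivity)
  calc ∑ z : Fin k → V, (if ∃ i, z i = σ [z] then 0 else surv G σ T [z] z (σ [z]))
      ≤ ∑ z : Fin k → V, ∑ x : V, ps T (fun ms => ∏ i, miss G act x ms (z i)) := by
        refine Finset.sum_le_sum (fun z _ => ?_)
        have hnn : ∀ x, 0 ≤ ps T (fun ms => ∏ i, miss G act x ms (z i)) := fun x =>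
          ps_nonneg _ _ (fun ms => Finset.prod_nonneg (fun i _ => (miss_bd _ _ _ _ _).1))
        split_ifs with h
        · exact Finset.sum_nonneg (fun x _ => hnn x)
        · push Not at h
          refine le_trans (surv_le G act hact σ T [z] z (σ [z]) h) ?_
          exact Finset.single_le_sum (f := fun x => ps T (fun ms => ∏ i, miss G act x ms (z i)))
            (fun x _ => hnn x) (Finset.mem_univ _)
    _ = ∑ x : V, ps T (fun ms => (∑ z, miss G act x ms z) ^ k) := by
        rw [Finset.sum_comm]
        refine Finset.sum_congr rfl (fun x _ => ?_)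
        rw [← ps_sum]
        congr 1
        funext ms
        have := Finset.prod_univ_sum (fun _ : Fin k => (Finset.univ : Finset V))
            (fun _ v => miss G act x ms v)
        rw [Fintype.piFinset_univ] at this
        rw [← this]
        simp
    _ ≤ ∑ _x : V, 5 ^ T * B ^ k := by
        refine Finset.sum_le_sum (fun x _ => ps_le _ _ _ (fun ms hms => ?_))
        exact pow_le_pow_left₀ (Finset.sum_nonneg (fun z _ => (miss_bd _ _ _ _ _).1)) (hB x ms hms) k
    _ = (Fintype.card V : ℝ) * 5 ^ T * B ^ k := by
        simp only [Finset.sum_const, Finset.card_univ, nsmul_eq_mul]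
        ring

lemma survProb_nonneg (G : SimpleGraph V) {k : ℕ} (σ : Strategy V k) (T : ℕ) : 0 ≤ survProb G σ T := by
  classical
  unfold survProb
  refine div_nonneg (Finset.sum_nonneg (fun z _ => ?_)) (by positivity)
  split_ifs
  · exact le_rfl
  · exact surv_nonneg _ _ _ _ _ _

lemma sVal_le [Nonempty V] (G : SimpleGraph V) (k : ℕ) (c : ℝ) (T : ℕ)
    (h : ∀ σ : Strategy V k, survProb G σ T ≤ c) : sVal G k ≤ c := by
  unfold sVal
  have : Nonempty (Strategy V k) := ⟨fun _ => Classical.arbitrary V⟩
  refine ciSup_le (fun σ => ?_)
  refine le_trans (ciInf_le ?_ T) (h σ)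
  exact ⟨0, by rintro _ ⟨T, rfl⟩; exact survProb_nonneg _ _ _⟩

lemma zombieNumber_spec (G : SimpleGraph V) (k : ℕ) (h : sVal G k ≤ 1 / 2) :
    zombieNumber G ≤ k ∧ sVal G (zombieNumber G) ≤ 1 / 2 :=
  ⟨Nat.sInf_le h, Nat.sInf_mem (s := {k : ℕ | sVal G k ≤ 1 / 2}) ⟨k, h⟩⟩

end Pool.Agent.Zomb
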