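import Mathlib

set_option autoImplicit false
set_option maxHeartbeats 4000000

namespace Pool.Agent.Zomb

/-- `w R y` is the expectation of `|y + S_R|` for the simple random walk `S`. -/
noncomputable def w : ℕ → ℤ → ℝ
  | 0, y => |(y : ℝ)|
  | R + 1, y => (w R (y + 1) + w R (y - 1)) / 2

lemma w_zero (y : ℤ) : w 0 y = |(y : ℝ)| := rfl
lemma w_succ (R : ℕ) (y : ℤ) : w (R + 1) y = (w R (y + 1) + w R (y - 1)) / 2 := rfl

lemma w_lip (R : ℕ) : ∀ y y' : ℤ, w R y ≤ w R y' + |((y - y' : ℤ) : ℝ)| := by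
  induction R with
  | zero =>
    intro y y'
    rw [w_zero, w_zero]
    have : (y : ℝ) = y' + ((y - y' : ℤ) : ℝ) := by push_cast; ring
    calc |(y : ℝ)| = |(y' : ℝ) + ((y - y' : ℤ) : ℝ)| := by rw [← this]
      _ ≤ _ := abs_add_le _ _
  | succ R ih =>
    intro y y'
    rw [w_succ, w_succ]
    have h1 := ih (y + 1) (y' + 1)
    have h2 := ih (y - 1) (y' - 1)
    have e1 : (y + 1) - (y' + 1) = y - y' := by ring
    have e2 : (y - 1) - (y' - 1) = y - y' := by ring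
    rw [e1] at h1
    rw [e2] at h2
    linarith

lemma w_neg (R : ℕ) : ∀ y : ℤ, w R (-y) = w R y := by
  induction R with
  | zero => intro y; simp [w_zero]
  | succ R ih =>
    intro y
    rw [w_succ, w_succ]
    have h1 := ih (y - 1)
    have h2 := ih (y + 1)
    have e1 : -y + 1 = -(y - 1) := by ring
    have e2 : -y - 1 = -(y + 1) := by ring
    rw [e1, e2, h1, h2]
    ring

lemma w_mid (R : ℕ) : ∀ a y : ℤ, 2 * w R a ≤ w R (a + y) + w R (a - y) := by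
  induction R with
  | zero =>
    intro a y
    simp only [w_zero]
    push_cast
    have : 2 * (a : ℝ) = (a + y) + (a - y) := by ring
    calc 2 * |(a : ℝ)| = |2 * (a : ℝ)| := by rw [abs_mul]; norm_num
      _ = |((a : ℝ) + y) + (a - y)| := by rw [this]
      _ ≤ _ := abs_add_le _ _
  | succ R ih =>
    intro a y
    rw [w_succ, w_succ, w_succ]
    have h1 := ih (a + 1) y
    have h2 := ih (a - 1) y
    have e1 : a + 1 + y = a + y + 1 := by ring
    have e2 : a + 1 - y = a - y + 1 := by ring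
    have e3 : a - 1 + y = a + y - 1 := by ring
    have e4 : a - 1 - y = a - y - 1 := by ring
    rw [e1, e2] at h1
    rw [e3, e4] at h2
    linarith

lemma w_ge_zero (R : ℕ) (y : ℤ) : w R 0 ≤ w R y := by
  have h := w_mid R 0 y
  rw [zero_add, zero_sub, w_neg] at h
  linarith

lemma w_moment (l : ℝ) (hl : 0 < l) (R : ℕ) : ∀ y : ℤ,
    (3 / 2) * ((y : ℝ) ^ 2 + R) / l
      - (1 / 2) * ((y : ℝ) ^ 4 + 6 * R * (y : ℝ) ^ 2 + 3 * (R : ℝ) ^ 2 - 2 * R) / l ^ 3 ≤ w R y := by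
  induction R with
  | zero =>
    intro y
    rw [w_zero]
    set t := |(y : ℝ)| with ht
    have ht0 : 0 ≤ t := abs_nonneg _
    have h2 : (y : ℝ) ^ 2 = t ^ 2 := by rw [ht, sq_abs]
    have h4 : (y : ℝ) ^ 4 = t ^ 4 := by
      have : (y : ℝ) ^ 4 = ((y : ℝ) ^ 2) ^ 2 := by ring
      rw [this, h2]; ring
    rw [h2, h4]
    push_cast
    have : t - ((3 / 2) * (t ^ 2 + 0) / l - (1 / 2) * (t ^ 4 + 6 * 0 * t ^ 2 + 3 * 0 ^ 2 - 2 * 0) / l ^ 3)
        = t * (t - l) ^ 2 * (t + 2 * l) / (2 * l ^ 3) := by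
      field_simp
      ring
    have h5 : 0 ≤ t * (t - l) ^ 2 * (t + 2 * l) / (2 * l ^ 3) := by positivity
    linarith
  | succ R ih =>
    intro y
    rw [w_succ]
    have h1 := ih (y + 1)
    have h2 := ih (y - 1)
    push_cast at h1 h2 ⊢
    have key : (3 / 2) * ((y : ℝ) ^ 2 + (R + 1)) / l
      - (1 / 2) * ((y : ℝ) ^ 4 + 6 * (R + 1) * (y : ℝ) ^ 2 + 3 * ((R : ℝ) + 1) ^ 2 - 2 * (R + 1)) / l ^ 3
      = (((3 / 2) * (((y : ℝ) + 1) ^ 2 + R) / l
      - (1 / 2) * (((y : ℝ) + 1) ^ 4 + 6 * R * ((y : ℝ) + 1) ^ 2 + 3 * (R : ℝ) ^ 2 - 2 * R) / l ^ 3)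
      + ((3 / 2) * (((y : ℝ) - 1) ^ 2 + R) / l
      - (1 / 2) * (((y : ℝ) - 1) ^ 4 + 6 * R * ((y : ℝ) - 1) ^ 2 + 3 * (R : ℝ) ^ 2 - 2 * R) / l ^ 3)) / 2 := by
      field_simp
      ring
    rw [key]
    linarith

/-- `E|S_R| ≥ √(R/3)`, in any position. -/
lemma w_lower (R : ℕ) (y : ℤ) : Real.sqrt ((R : ℝ) / 3) ≤ w R y := by
  refine le_trans ?_ (w_ge_zero R y)
  rcases Nat.eq_zero_or_pos R with h | h
  · subst h; simp [w_zero]
  · have hR : (0 : ℝ) < R := by exact_mod_cast h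
    set s := Real.sqrt ((R : ℝ) / 3) with hs
    have hs0 : 0 < s := Real.sqrt_pos.mpr (by positivity)
    have hs2 : s ^ 2 = (R : ℝ) / 3 := Real.sq_sqrt (by positivity)
    have hR' : (R : ℝ) = 3 * s ^ 2 := by rw [hs2]; ring
    have h1 := w_moment (3 * s) (by positivity) R 0
    refine le_trans ?_ h1
    push_cast
    rw [hR']
    have : (3 / 2) * ((0 : ℝ) ^ 2 + 3 * s ^ 2) / (3 * s)
      - (1 / 2) * ((0 : ℝ) ^ 4 + 6 * (3 * s ^ 2) * (0 : ℝ) ^ 2 + 3 * (3 * s ^ 2) ^ 2 - 2 * (3 * s ^ 2)) / (3 * s) ^ 3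
      - s = 1 / (9 * s) := by
      field_simp
      ring
    have h5 : 0 < 1 / (9 * s) := by positivity
    linarith

end Pool.Agent.Zomb
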