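import Mathlib
import Pool.Agent.Zomb.Walk

set_option autoImplicit false
set_option maxHeartbeats 4000000

namespace Pool.Agent.Zomb

/-- horizontal displacement of the five survivor moves (stay, E, W, N, S) -/
def dx : Fin 5 → ℤ := ![0, 1, -1, 0, 0]
/-- vertical displacement of the five survivor moves (stay, E, W, N, S) -/
def dy : Fin 5 → ℤ := ![0, 0, 0, 1, -1]

/-- first coordinate, relative to the survivor, after the move of a zombie with coin `c` -/
def mvX (c : Bool) (a b : ℤ) : ℤ := if a ≠ 0 ∧ (b = 0 ∨ c = true) then a - Int.sign a else a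
/-- second coordinate, relative to the survivor, after the move of a zombie with coin `c` -/
def mvY (c : Bool) (a b : ℤ) : ℤ := if a ≠ 0 ∧ (b = 0 ∨ c = true) then b else b - Int.sign b

/-- `1` at the origin, elsewhere `F` shifted by the survivor's move -/
noncomputable def nx (F : ℤ → ℤ → ℝ) (p q : ℤ) (a b : ℤ) : ℝ :=
  if a = 0 ∧ b = 0 then 1 else F (a - p) (b - q)

/-- probability that a zombie at relative position `(a, b)` in the plane catches a survivor who
makes the moves of the list -/
noncomputable def H (px py : Fin 5 → ℤ) : List (Fin 5) → ℤ → ℤ → ℝ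
  | [], a, b => if a = 0 ∧ b = 0 then 1 else 0
  | m :: ms, a, b => if a = 0 ∧ b = 0 then 1 else
      (nx (H px py ms) (px m) (py m) (mvX true a b) (mvY true a b)
        + nx (H px py ms) (px m) (py m) (mvX false a b) (mvY false a b)) / 2

lemma nx_nonneg {F : ℤ → ℤ → ℝ} (hF : ∀ a b, 0 ≤ F a b) (p q a b : ℤ) : 0 ≤ nx F p q a b := by
  unfold nx; split_ifs
  · norm_num
  · exact hF _ _

lemma nx_le {F : ℤ → ℤ → ℝ} (hF : ∀ a b, F a b ≤ 1) (p q a b : ℤ) : nx F p q a b ≤ 1 := by
  unfold nx; split_ifs
  · norm_num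
  · exact hF _ _

lemma H_nonneg (px py : Fin 5 → ℤ) (ms : List (Fin 5)) : ∀ a b, 0 ≤ H px py ms a b := by
  induction ms with
  | nil => intro a b; simp only [H]; split_ifs <;> norm_num
  | cons m ms ih =>
    intro a b
    simp only [H]
    split_ifs
    · norm_num
    · have h1 := nx_nonneg ih (px m) (py m) (mvX true a b) (mvY true a b)
      have h2 := nx_nonneg ih (px m) (py m) (mvX false a b) (mvY false a b)
      linarith

lemma H_le (px py : Fin 5 → ℤ) (ms : List (Fin 5)) : ∀ a b, H px py ms a b ≤ 1 := by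
  induction ms with
  | nil => intro a b; simp only [H]; split_ifs <;> norm_num
  | cons m ms ih =>
    intro a b
    simp only [H]
    split_ifs
    · norm_num
    · have h1 := nx_le ih (px m) (py m) (mvX true a b) (mvY true a b)
      have h2 := nx_le ih (px m) (py m) (mvX false a b) (mvY false a b)
      linarith

lemma H_neg (px py : Fin 5 → ℤ) (ms : List (Fin 5)) :
    ∀ a b, H px (fun m => - py m) ms a (-b) = H px py ms a b := by
  induction ms with
  | nil => intro a b; simp only [H, neg_eq_zero]
  | cons m ms ih =>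
    intro a b
    have hX : ∀ c, mvX c a (-b) = mvX c a b := by
      intro c; simp only [mvX, neg_eq_zero]
    have hY : ∀ c, mvY c a (-b) = - mvY c a b := by
      intro c; simp only [mvY, neg_eq_zero, Int.sign_neg]; split_ifs <;> ring
    have hn : ∀ a' b', nx (H px (fun m => - py m) ms) (px m) (- py m) a' (-b')
        = nx (H px py ms) (px m) (py m) a' b' := by
      intro a' b'
      simp only [nx, neg_eq_zero]
      have : -b' - - py m = -(b' - py m) := by ring
      rw [this, ih]
    simp only [H, neg_eq_zero, hX, hY, hn]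

lemma H_swap (px py : Fin 5 → ℤ) (ms : List (Fin 5)) :
    ∀ a b, H py px ms b a = H px py ms a b := by
  induction ms with
  | nil => intro a b; simp only [H, and_comm]
  | cons m ms ih =>
    intro a b
    have hn : ∀ a' b', nx (H py px ms) (py m) (px m) b' a'
        = nx (H px py ms) (px m) (py m) a' b' := by
      intro a' b'
      simp only [nx]
      rw [ih]
      split_ifs with h1 h2 h2
      · rfl
      · exact absurd h1.symm h2
      · exact absurd h2.symm h1
      · rfl
    simp only [H]
    by_cases h0 : a = 0 ∧ b = 0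
    · rw [if_pos h0, if_pos h0.symm]
    · rw [if_neg h0, if_neg (fun h => h0 h.symm)]
      rw [hn, hn]
      by_cases ha : a = 0
      · have hb : b ≠ 0 := fun hb => h0 ⟨ha, hb⟩
        subst ha
        simp [mvX, mvY, hb]
      · by_cases hb : b = 0
        · subst hb
          simp [mvX, mvY, ha]
        · simp [mvX, mvY, ha, hb]
          ring

/-- update of the deficit by the survivor's move -/
def upd (u : ℕ) (d : ℤ) : ℕ := Int.toNat ((u : ℤ) - d)

/-- expected number of record times on an arm -/
noncomputable def kA (px py : Fin 5 → ℤ) : List (Fin 5) → ℤ → ℕ → ℝ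
  | [], _, _ => 0
  | m :: ms, x, u => (if x = 0 ∧ u = 0 then 1 else 0) +
      (kA px py ms (x - Int.sign x - px m) (upd (if x = 0 then u - 1 else u) (py m))
        + kA px py ms (x - px m) (upd (u - 1) (py m))) / 2

lemma sum_Ioc_shift (f : ℤ → ℝ) (lo hi d : ℤ) :
    ∑ j ∈ Finset.Ioc lo hi, f (j - d) = ∑ j ∈ Finset.Ioc (lo - d) (hi - d), f j := by
  refine Finset.sum_equiv (Equiv.subRight d) ?_ ?_
  · intro i
    simp only [Finset.mem_Ioc, Equiv.subRight_apply]
    constructor <;> intro h <;> constructor <;> linarith [h.1, h.2]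
  · intro i _
    simp only [Equiv.subRight_apply]

lemma sum_Ioc_mono (f : ℤ → ℝ) (hf : ∀ j, 0 ≤ f j) {lo hi lo' hi' : ℤ} (h1 : lo' ≤ lo) (h2 : hi ≤ hi') :
    ∑ j ∈ Finset.Ioc lo hi, f j ≤ ∑ j ∈ Finset.Ioc lo' hi', f j := by
  refine Finset.sum_le_sum_of_subset_of_nonneg ?_ (fun i _ _ => hf i)
  intro i hi
  simp only [Finset.mem_Ioc] at hi ⊢
  constructor <;> linarith [hi.1, hi.2]

lemma arm (px py : Fin 5 → ℤ) (hpy : ∀ m, -1 ≤ py m ∧ py m ≤ 1) (ms : List (Fin 5)) :
    ∀ (x : ℤ) (u : ℕ) (hi : ℤ), (u : ℤ) + 2 * ms.length ≤ hi →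
      kA px py ms x u ≤ ∑ j ∈ Finset.Ioc (u : ℤ) hi, H px py ms x j := by
  induction ms with
  | nil =>
    intro x u hi _
    simp only [kA]
    exact Finset.sum_nonneg (fun j _ => H_nonneg _ _ _ _ _)
  | cons m ms ih =>
    intro x u hi hhi
    have hp := hpy m
    rw [List.length_cons] at hhi
    push_cast at hhi
    -- the shift lemma
    have shift : ∀ (a' : ℤ) (u1 : ℕ) (hi1 : ℤ), (u1 : ℤ) + 2 * ms.length + 1 ≤ hi1 → u1 ≤ u → 
        (u : ℤ) + 2 * ms.length + 1 ≤ hi1 →
        kA px py ms (a' - px m) (upd u1 (py m)) ≤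
          ∑ j ∈ Finset.Ioc (u1 : ℤ) hi1, nx (H px py ms) (px m) (py m) a' j := by
      intro a' u1 hi1 h1 h2 h3
      have e1 : ∑ j ∈ Finset.Ioc (u1 : ℤ) hi1, nx (H px py ms) (px m) (py m) a' j
          = ∑ j ∈ Finset.Ioc (u1 : ℤ) hi1, (fun i => H px py ms (a' - px m) i) (j - py m) := by
        refine Finset.sum_congr rfl ?_
        intro j hj
        rw [Finset.mem_Ioc] at hj
        have : ¬ (a' = 0 ∧ j = 0) := by rintro ⟨_, h⟩; omega
        simp only [nx, if_neg this]
      rw [e1, sum_Ioc_shift]
      refine le_trans (ih (a' - px m) (upd u1 (py m)) (hi1 - py m) ?_) ?_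
      · unfold upd; omega
      · refine sum_Ioc_mono _ (fun j => H_nonneg _ _ _ _ _) ?_ le_rfl
        unfold upd; omega
    have V : (if x = 0 ∧ u = 0 then (1 : ℝ) else 0) + kA px py ms (x - px m) (upd (u - 1) (py m)) ≤
        ∑ j ∈ Finset.Ioc (u : ℤ) hi, nx (H px py ms) (px m) (py m) x (j - 1) := by
      rw [sum_Ioc_shift (fun j => nx (H px py ms) (px m) (py m) x j)]
      have h1 := shift x (u - 1) (hi - 1) (by omega) (by omega) (by omega)
      by_cases hu : u = 0
      · subst hu
        have e2 : Finset.Ioc ((0 : ℕ) - 1 : ℤ) (hi - 1) = insert 0 (Finset.Ioc 0 (hi - 1)) := by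
          ext j
          simp only [Finset.mem_Ioc, Finset.mem_insert]
          omega
        rw [e2, Finset.sum_insert (by simp)]
        have h3 : (if x = 0 ∧ (0 : ℕ) = 0 then (1 : ℝ) else 0) ≤ nx (H px py ms) (px m) (py m) x 0 := by
          by_cases hx : x = 0
          · simp [nx, hx]
          · simp only [hx, false_and, if_false]
            exact nx_nonneg (H_nonneg _ _ _) _ _ _ _
        simp only [Nat.zero_sub, Nat.cast_zero, and_true] at h1 h3 ⊢
        linarith
      · rw [if_neg (fun h => hu h.2), zero_add]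
        have e3 : ((u - 1 : ℕ) : ℤ) = (u : ℤ) - 1 := by omega
        rw [e3] at h1
        exact h1
    have L : kA px py ms (x - Int.sign x - px m) (upd u (py m)) ≤
        ∑ j ∈ Finset.Ioc (u : ℤ) hi, nx (H px py ms) (px m) (py m) (x - Int.sign x) j :=
      shift (x - Int.sign x) u hi (by omega) le_rfl (by omega)
    by_cases hx : x = 0
    · subst hx
      have e1 : ∑ j ∈ Finset.Ioc (u : ℤ) hi, H px py (m :: ms) 0 j
          = ∑ j ∈ Finset.Ioc (u : ℤ) hi, nx (H px py ms) (px m) (py m) 0 (j - 1) := by
        refine Finset.sum_congr rfl ?_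
        intro j hj
        rw [Finset.mem_Ioc] at hj
        have hj0 : 0 < j := by omega
        have hj1 : j ≠ 0 := by omega
        simp only [H, mvX, mvY, hj1, and_false, if_false, ne_eq, not_true, false_and,
          Int.sign_eq_one_of_pos hj0]
        ring
      rw [e1]
      simp only [true_and] at V
      simp only [kA, Int.sign_zero, sub_zero, if_true, true_and]
      linarith
    · have e1 : ∑ j ∈ Finset.Ioc (u : ℤ) hi, H px py (m :: ms) x j
          = (∑ j ∈ Finset.Ioc (u : ℤ) hi, nx (H px py ms) (px m) (py m) (x - Int.sign x) j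
            + ∑ j ∈ Finset.Ioc (u : ℤ) hi, nx (H px py ms) (px m) (py m) x (j - 1)) / 2 := by
        rw [← Finset.sum_add_distrib, Finset.sum_div]
        refine Finset.sum_congr rfl ?_
        intro j hj
        rw [Finset.mem_Ioc] at hj
        have hj0 : 0 < j := by omega
        have hj1 : j ≠ 0 := by omega
        simp [H, mvX, mvY, hj1, hx, Int.sign_eq_one_of_pos hj0]
      rw [e1]
      rw [if_neg (fun h => hx h.1)] at V
      simp only [kA, if_neg hx]
      rw [if_neg (fun h => hx h.1)]
      linarith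

end Pool.Agent.Zomb
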