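import Mathlib
import Pool.Agent.Zomb.Arm

set_option autoImplicit false
set_option maxHeartbeats 4000000

namespace Pool.Agent.Zomb

/-- potential of one pair of opposite arms -/
def al (z : ℤ) (u v : ℕ) : ℤ :=
  2 * |z| + 3 * (max ((u : ℤ) - max z 0) 0 + max ((v : ℤ) - max (-z) 0) 0)

lemma al_surv (z : ℤ) (u v : ℕ) (d : ℤ) (h1 : -1 ≤ d) (h2 : d ≤ 1) :
    |(|z| + |d| - |z - d|)| + 2 * (al (z - d) (upd u d) (upd v (-d)) - al z u v) ≤ 4 * |d| := by
  have hd : d = -1 ∨ d = 0 ∨ d = 1 := by omega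
  rcases hd with rfl | rfl | rfl
  · unfold al upd
    rcases le_or_gt 0 z with hz | hz
    · rw [abs_of_nonneg hz, abs_of_nonneg (by omega : 0 ≤ z - -1)]
      have e : z + |(-1 : ℤ)| - (z - -1) = 0 := by rw [abs_neg, abs_one]; ring
      rw [e]
      norm_num
      omega
    · rw [abs_of_neg hz, abs_of_nonpos (by omega : z - -1 ≤ 0)]
      have e : -z + |(-1 : ℤ)| - -(z - -1) = 2 := by rw [abs_neg, abs_one]; ring
      rw [e]
      norm_num
      omega
  · unfold al upd
    simp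
  · unfold al upd
    rcases le_or_gt z 0 with hz | hz
    · rw [abs_of_nonpos hz, abs_of_nonpos (by omega : z - 1 ≤ 0)]
      have e : -z + |(1 : ℤ)| - -(z - 1) = 0 := by rw [abs_one]; ring
      rw [e]
      norm_num
      omega
    · rw [abs_of_pos hz, abs_of_nonneg (by omega : 0 ≤ z - 1)]
      have e : z + |(1 : ℤ)| - (z - 1) = 2 := by rw [abs_one]; ring
      rw [e]
      norm_num
      omega

lemma al_z1 (z : ℤ) (hz : z ≠ 0) (u v : ℕ) : al (z - Int.sign z) (u - 1) (v - 1) ≤ al z u v - 2 := by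
  unfold al
  rcases lt_or_gt_of_ne hz with h | h
  · rw [Int.sign_eq_neg_one_of_neg h, abs_of_neg h, abs_of_nonpos (by omega : z - -1 ≤ 0)]
    omega
  · rw [Int.sign_eq_one_of_pos h, abs_of_pos h, abs_of_nonneg (by omega : 0 ≤ z - 1)]
    omega

lemma al_z2 (z : ℤ) (u v : ℕ) (hu : u ≠ 0) (hv : v ≠ 0) : al z (u - 1) (v - 1) ≤ al z u v - 3 := by
  unfold al
  rcases le_or_gt 0 z with h | h
  · omega
  · omega

lemma al_z3 (z : ℤ) (u v : ℕ) : al z (u - 1) (v - 1) ≤ al z u v := by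
  unfold al
  omega

lemma abs_sign_step (z : ℤ) (hz : z ≠ 0) : |z - Int.sign z| = |z| - 1 := by
  rcases lt_or_gt_of_ne hz with h | h
  · rw [Int.sign_eq_neg_one_of_neg h, abs_of_neg h, abs_of_nonpos (by omega : z - -1 ≤ 0)]
    omega
  · rw [Int.sign_eq_one_of_pos h, abs_of_pos h, abs_of_nonneg (by omega : 0 ≤ z - 1)]

/-- one half of the one-step inequality; `z` is the coordinate which the coin moves towards `0` -/
lemma one_step (x z : ℤ) (u v u' v' : ℕ) (p q : ℤ) (hp : -1 ≤ p ∧ p ≤ 1) (hq : -1 ≤ q ∧ q ≤ 1)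
    (hpq : |p| + |q| ≤ 1) :
    |(|x| - |z| + 1 + (|p| - |q|)) - (|x - p| - |z - Int.sign z - q|)|
      + 2 * (al (z - Int.sign z - q) (upd (u - 1) q) (upd (v - 1) (-q))
        + al (x - p) (upd (if z = 0 then u' - 1 else u') p) (upd (if z = 0 then v' - 1 else v') (-p)))
      ≤ 2 * (al z u v + al x u' v') + 5 * (if z = 0 ∧ (u' = 0 ∨ v' = 0) then 1 else 0) := by
  have s1 := al_surv (z - Int.sign z) (u - 1) (v - 1) q hq.1 hq.2
  have s2 := al_surv x (if z = 0 then u' - 1 else u') (if z = 0 then v' - 1 else v') p hp.1 hp.2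
  set A := |(|z - Int.sign z| + |q| - |z - Int.sign z - q|)| with hA
  set B := |(|x| + |p| - |x - p|)| with hB
  have tri : |(|x| - |z| + 1 + (|p| - |q|)) - (|x - p| - |z - Int.sign z - q|)|
      ≤ A + B + |(|z| - 1 - |z - Int.sign z|)| := by
    have e : (|x| - |z| + 1 + (|p| - |q|)) - (|x - p| - |z - Int.sign z - q|)
       = (|x| + |p| - |x - p|) - (|z - Int.sign z| + |q| - |z - Int.sign z - q|)
         - (|z| - 1 - |z - Int.sign z|) := by ring
    rw [e]
    refine le_trans (abs_sub _ _) ?_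
    refine le_trans (add_le_add (abs_sub _ _) le_rfl) ?_
    rw [← hA, ← hB]
    linarith
  by_cases hz : z = 0
  · subst hz
    simp only [Int.sign_zero, sub_zero, abs_zero, zero_sub, if_true, true_and] at *
    have z3 := al_z3 0 u v
    by_cases hg : u' = 0 ∨ v' = 0
    · rw [if_pos hg]
      have z3' := al_z3 x u' v'
      norm_num at tri
      simp only [abs_neg] at tri ⊢
      linarith
    · rw [if_neg hg]
      push Not at hg
      have z2 := al_z2 x u' v' hg.1 hg.2
      norm_num at tri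
      simp only [abs_neg] at tri ⊢
      linarith
  · rw [if_neg hz, if_neg hz] at *
    rw [if_neg (fun h => hz h.1)]
    have z1 := al_z1 z hz u v
    have e := abs_sign_step z hz
    rw [e] at tri
    simp only [sub_self, abs_zero] at tri
    linarith

/-- sum of the signs of the moves -/
def dsum : List (Fin 5) → ℤ
  | [] => 0
  | m :: ms => (|dx m| - |dy m|) + dsum ms

/-- the four arms together -/
noncomputable def K4 (ms : List (Fin 5)) (x z : ℤ) (u v u' v' : ℕ) : ℝ :=
  kA dx dy ms x u + kA dx (fun m => - dy m) ms x v + kA dy dx ms z u' + kA dy (fun m => - dx m) ms z v'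

lemma dx_bd (m : Fin 5) : -1 ≤ dx m ∧ dx m ≤ 1 := by
  fin_cases m <;> simp [dx]

lemma dy_bd (m : Fin 5) : -1 ≤ dy m ∧ dy m ≤ 1 := by
  fin_cases m <;> simp [dy]

lemma dxy_bd (m : Fin 5) : |dx m| + |dy m| ≤ 1 := by
  fin_cases m <;> simp [dx, dy]

lemma joint (ms : List (Fin 5)) : ∀ (x z : ℤ) (u v u' v' : ℕ),
    w ms.length (|x| - |z| + dsum ms) ≤ (5 / 2) * K4 ms x z u v u' v'
      + 2 * ((al z u v + al x u' v' : ℤ) : ℝ) := by
  induction ms with
  | nil =>
    intro x z u v u' v'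
    simp only [List.length_nil, w_zero, dsum, add_zero, K4, kA]
    have h1 : |(|x| - |z|)| ≤ 2 * (al z u v + al x u' v') := by
      unfold al
      have : |(|x| - |z|)| ≤ |x| + |z| := by
        rw [abs_le]; constructor <;> linarith [abs_nonneg x, abs_nonneg z]
      have a1 : 0 ≤ max ((u : ℤ) - max z 0) 0 := le_max_right _ _
      have a2 : 0 ≤ max ((v : ℤ) - max (-z) 0) 0 := le_max_right _ _
      have a3 : 0 ≤ max ((u' : ℤ) - max x 0) 0 := le_max_right _ _
      have a4 : 0 ≤ max ((v' : ℤ) - max (-x) 0) 0 := le_max_right _ _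
      linarith [abs_nonneg x, abs_nonneg z]
    have h2 : ((|(|x| - |z|)| : ℤ) : ℝ) ≤ ((2 * (al z u v + al x u' v') : ℤ) : ℝ) := by exact_mod_cast h1
    push_cast at h2 ⊢
    linarith
  | cons m ms ih =>
    intro x z u v u' v'
    rw [List.length_cons, w_succ]
    simp only [dsum]
    -- coin moving z towards 0
    have iV := ih (x - dx m) (z - Int.sign z - dy m) (upd (u - 1) (dy m)) (upd (v - 1) (- dy m))
      (upd (if z = 0 then u' - 1 else u') (dx m)) (upd (if z = 0 then v' - 1 else v') (- dx m))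
    have iH := ih (x - Int.sign x - dx m) (z - dy m)
      (upd (if x = 0 then u - 1 else u) (dy m)) (upd (if x = 0 then v - 1 else v) (- dy m))
      (upd (u' - 1) (dx m)) (upd (v' - 1) (- dx m))
    have oV := one_step x z u v u' v' (dx m) (dy m) (dx_bd m) (dy_bd m) (dxy_bd m)
    have oH := one_step z x u' v' u v (dy m) (dx m) (dy_bd m) (dx_bd m)
      (by rw [add_comm]; exact dxy_bd m)
    have lV := w_lip ms.length (|x| - |z| + ((|dx m| - |dy m|) + dsum ms) + 1)
      (|x - dx m| - |z - Int.sign z - dy m| + dsum ms)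
    have lH := w_lip ms.length (|x| - |z| + ((|dx m| - |dy m|) + dsum ms) - 1)
      (|x - Int.sign x - dx m| - |z - dy m| + dsum ms)
    have eV : (|x| - |z| + ((|dx m| - |dy m|) + dsum ms) + 1) - (|x - dx m| - |z - Int.sign z - dy m| + dsum ms)
      = (|x| - |z| + 1 + (|dx m| - |dy m|)) - (|x - dx m| - |z - Int.sign z - dy m|) := by ring
    have eH : (|x| - |z| + ((|dx m| - |dy m|) + dsum ms) - 1) - (|x - Int.sign x - dx m| - |z - dy m| + dsum ms)
      = -((|z| - |x| + 1 + (|dy m| - |dx m|)) - (|z - dy m| - |x - Int.sign x - dx m|)) := by ring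
    rw [eV] at lV
    rw [eH] at lH
    rw [Int.cast_neg, abs_neg] at lH
    have oV' : ((|(|x| - |z| + 1 + (|dx m| - |dy m|)) - (|x - dx m| - |z - Int.sign z - dy m|)|
      + 2 * (al (z - Int.sign z - dy m) (upd (u - 1) (dy m)) (upd (v - 1) (- dy m))
        + al (x - dx m) (upd (if z = 0 then u' - 1 else u') (dx m)) (upd (if z = 0 then v' - 1 else v') (- dx m))) : ℤ) : ℝ)
      ≤ ((2 * (al z u v + al x u' v') + 5 * (if z = 0 ∧ (u' = 0 ∨ v' = 0) then 1 else 0) : ℤ) : ℝ) := by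
      exact_mod_cast oV
    have oH' : ((|(|z| - |x| + 1 + (|dy m| - |dx m|)) - (|z - dy m| - |x - Int.sign x - dx m|)|
      + 2 * (al (x - Int.sign x - dx m) (upd (u' - 1) (dx m)) (upd (v' - 1) (- dx m))
        + al (z - dy m) (upd (if x = 0 then u - 1 else u) (dy m)) (upd (if x = 0 then v - 1 else v) (- dy m))) : ℤ) : ℝ)
      ≤ ((2 * (al x u' v' + al z u v) + 5 * (if x = 0 ∧ (u = 0 ∨ v = 0) then 1 else 0) : ℤ) : ℝ) := by
      exact_mod_cast oH
    have gV : (if z = 0 ∧ (u' = 0 ∨ v' = 0) then (1 : ℝ) else 0) ≤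
        (if z = 0 ∧ u' = 0 then (1 : ℝ) else 0) + (if z = 0 ∧ v' = 0 then (1 : ℝ) else 0) := by
      by_cases h1 : z = 0 <;> by_cases h2 : u' = 0 <;> by_cases h3 : v' = 0 <;> simp [h1, h2, h3]
    have gH : (if x = 0 ∧ (u = 0 ∨ v = 0) then (1 : ℝ) else 0) ≤
        (if x = 0 ∧ u = 0 then (1 : ℝ) else 0) + (if x = 0 ∧ v = 0 then (1 : ℝ) else 0) := by
      by_cases h1 : x = 0 <;> by_cases h2 : u = 0 <;> by_cases h3 : v = 0 <;> simp [h1, h2, h3]
    simp only [K4, kA] at iV iH ⊢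
    push_cast at *
    linarith

end Pool.Agent.Zomb
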