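import Mathlib
import Pool.Agent.Zomb.Joint

set_option autoImplicit false
set_option maxHeartbeats 4000000

namespace Pool.Agent.Zomb

/-- sum over `[-K, K]` -/
noncomputable def s1 (K : ℕ) (f : ℤ → ℝ) : ℝ := ∑ a ∈ Finset.Icc (-(K : ℤ)) K, f a

lemma s1_zero (f : ℤ → ℝ) : s1 0 f = f 0 := by
  simp [s1]

lemma s1_succ (K : ℕ) (f : ℤ → ℝ) : s1 (K + 1) f = s1 K f + f ((K : ℤ) + 1) + f (-((K : ℤ) + 1)) := by
  unfold s1
  have e : Finset.Icc (-((K + 1 : ℕ) : ℤ)) ((K + 1 : ℕ) : ℤ)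
      = insert ((K : ℤ) + 1) (insert (-((K : ℤ) + 1)) (Finset.Icc (-(K : ℤ)) K)) := by
    ext j
    simp only [Finset.mem_Icc, Finset.mem_insert]
    omega
  rw [e, Finset.sum_insert, Finset.sum_insert]
  · ring
  · simp only [Finset.mem_Icc]; omega
  · simp only [Finset.mem_Icc, Finset.mem_insert]; omega

lemma s1_mono (K : ℕ) {f g : ℤ → ℝ} (h : ∀ a, f a ≤ g a) : s1 K f ≤ s1 K g :=
  Finset.sum_le_sum (fun a _ => h a)

lemma s1_nonneg (K : ℕ) {f : ℤ → ℝ} (h : ∀ a, 0 ≤ f a) : 0 ≤ s1 K f :=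
  Finset.sum_nonneg (fun a _ => h a)

lemma s1_add (K : ℕ) (f g : ℤ → ℝ) : s1 K (fun a => f a + g a) = s1 K f + s1 K g :=
  Finset.sum_add_distrib

lemma s1_mono_K (K : ℕ) {f : ℤ → ℝ} (h : ∀ a, 0 ≤ f a) : s1 K f ≤ s1 (K + 1) f := by
  rw [s1_succ]
  have := h ((K : ℤ) + 1)
  have := h (-((K : ℤ) + 1))
  linarith

lemma s1_step (K : ℕ) (f : ℤ → ℝ) :
    s1 (K + 1) (fun a => if a = 0 then 0 else f (a - Int.sign a)) = s1 K f + f 0 := by
  induction K with
  | zero =>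
    rw [s1_succ, s1_zero, s1_zero]
    simp
  | succ K ih =>
    rw [s1_succ, ih, s1_succ K f]
    have e1 : ((K + 1 : ℕ) : ℤ) + 1 ≠ 0 := by omega
    have e2 : -(((K + 1 : ℕ) : ℤ) + 1) ≠ 0 := by omega
    have e3 : Int.sign (((K + 1 : ℕ) : ℤ) + 1) = 1 := Int.sign_eq_one_of_pos (by omega)
    have e4 : Int.sign (-(((K + 1 : ℕ) : ℤ) + 1)) = -1 := Int.sign_eq_neg_one_of_neg (by omega)
    simp only [e1, e2, e3, e4, if_false]
    have e5 : ((K + 1 : ℕ) : ℤ) + 1 - 1 = (K : ℤ) + 1 := by push_cast; ring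
    have e6 : -(((K + 1 : ℕ) : ℤ) + 1) - -1 = -((K : ℤ) + 1) := by push_cast; ring
    rw [e5, e6]
    ring

lemma s1_shift (K : ℕ) {f : ℤ → ℝ} (h : ∀ a, 0 ≤ f a) (d : ℤ) (h1 : -1 ≤ d) (h2 : d ≤ 1) :
    s1 K f ≤ s1 (K + 1) (fun a => f (a - d)) := by
  unfold s1
  have e : ∑ a ∈ Finset.Icc (-((K + 1 : ℕ) : ℤ)) ((K + 1 : ℕ) : ℤ), f (a - d)
      = ∑ a ∈ Finset.Icc (-((K + 1 : ℕ) : ℤ) - d) (((K + 1 : ℕ) : ℤ) - d), f a := by
    refine Finset.sum_equiv (Equiv.subRight d) ?_ ?_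
    · intro i
      simp only [Finset.mem_Icc, Equiv.subRight_apply]
      constructor <;> intro h <;> constructor <;> linarith [h.1, h.2]
    · intro i _
      simp only [Equiv.subRight_apply]
  rw [e]
  refine Finset.sum_le_sum_of_subset_of_nonneg ?_ (fun i _ _ => h i)
  intro i hi
  simp only [Finset.mem_Icc] at hi ⊢
  omega

lemma s1_split (K : ℕ) (f : ℤ → ℝ) :
    s1 K f = f 0 + ∑ j ∈ Finset.Ioc (0 : ℤ) K, f j + ∑ j ∈ Finset.Ioc (0 : ℤ) K, f (-j) := by
  induction K with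
  | zero => simp [s1_zero]
  | succ K ih =>
    rw [s1_succ, ih]
    have e : Finset.Ioc (0 : ℤ) ((K + 1 : ℕ) : ℤ) = insert ((K : ℤ) + 1) (Finset.Ioc (0 : ℤ) K) := by
      ext j
      simp only [Finset.mem_Ioc, Finset.mem_insert]
      omega
    rw [e, Finset.sum_insert (by simp), Finset.sum_insert (by simp)]
    ring

lemma arm0 (px py : Fin 5 → ℤ) (hpy : ∀ m, -1 ≤ py m ∧ py m ≤ 1) (ms : List (Fin 5)) (m : Fin 5)
    (a' : ℤ) (K : ℕ) (hK : 2 * ms.length + 1 ≤ K) :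
    kA px py ms a' (upd 0 (py m)) ≤ ∑ j ∈ Finset.Ioc (0 : ℤ) K, H px py ms a' (j - py m) := by
  rw [sum_Ioc_shift (fun j => H px py ms a' j)]
  have hp := hpy m
  refine le_trans (arm px py hpy ms a' (upd 0 (py m)) ((K : ℤ) - py m) ?_) ?_
  · unfold upd; omega
  · refine sum_Ioc_mono _ (fun j => H_nonneg _ _ _ _ _) ?_ le_rfl
    unfold upd; omega

/-- sum over the box of the catching probabilities -/
noncomputable def S (K : ℕ) (ms : List (Fin 5)) : ℝ := s1 K (fun b => s1 K (fun a => H dx dy ms a b))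

lemma H_cons_eq (m : Fin 5) (ms : List (Fin 5)) (a b : ℤ) (g : ℤ → ℤ → ℝ)
    (hg : g = nx (H dx dy ms) (dx m) (dy m)) :
    H dx dy (m :: ms) a b = (if b = 0 then (if a = 0 then 1 else 0) else 0) +
      (((if a = 0 then 0 else g (a - Int.sign a) b) + (if a = 0 then (if b = 0 then 0 else g 0 (b - Int.sign b)) else 0))
      + ((if b = 0 then 0 else g a (b - Int.sign b)) + (if b = 0 then (if a = 0 then 0 else g (a - Int.sign a) 0) else 0))) / 2 := by
  subst hg
  by_cases ha : a = 0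
  · subst ha
    by_cases hb : b = 0
    · subst hb
      simp [H]
    · simp [H, hb, mvX, mvY]
  · by_cases hb : b = 0
    · subst hb
      simp [H, ha, mvX, mvY]
    · simp [H, ha, hb, mvX, mvY]

lemma s1_ite (K : ℕ) (c : ℝ) : s1 K (fun a => if a = 0 then c else 0) = c := by
  unfold s1
  rw [Finset.sum_ite_eq' ]
  simp

lemma s1_div (K : ℕ) (f : ℤ → ℝ) : s1 K (fun a => f a / 2) = s1 K f / 2 := by
  unfold s1
  rw [Finset.sum_div]

lemma s1_comm (K : ℕ) (f : ℤ → ℤ → ℝ) :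
    s1 K (fun b => s1 K (fun a => f a b)) = s1 K (fun a => s1 K (fun b => f a b)) :=
  Finset.sum_comm

lemma S_rec1 (K : ℕ) (m : Fin 5) (ms : List (Fin 5)) (g : ℤ → ℤ → ℝ)
    (hg : g = nx (H dx dy ms) (dx m) (dy m)) :
    1 + s1 K (fun b => s1 K (fun a => g a b)) + s1 K (fun b => g 0 b) + s1 K (fun a => g a 0) + g 0 0
      ≤ S (K + 1) (m :: ms) := by
  have hg0 : ∀ a b, 0 ≤ g a b := by
    intro a b; rw [hg]; exact nx_nonneg (H_nonneg _ _ _) _ _ _ _
  unfold S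
  simp only [H_cons_eq m ms _ _ g hg]
  simp only [s1_add, s1_div]
  -- the unit term
  have t0 : s1 (K + 1) (fun b => s1 (K + 1) (fun a => if b = 0 then (if a = 0 then (1 : ℝ) else 0) else 0)) = 1 := by
    have : (fun b : ℤ => s1 (K + 1) (fun a => if b = 0 then (if a = 0 then (1 : ℝ) else 0) else 0))
        = (fun b : ℤ => if b = 0 then 1 else 0) := by
      funext b
      by_cases hb : b = 0
      · simp only [hb, if_true]
        exact s1_ite _ _
      · simp only [hb, if_false]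
        simp [s1]
    rw [this, s1_ite]
  have t1 : s1 (K + 1) (fun b => s1 (K + 1) (fun a => if a = 0 then 0 else g (a - Int.sign a) b))
      ≥ s1 K (fun b => s1 K (fun a => g a b)) + s1 K (fun b => g 0 b) := by
    have : (fun b : ℤ => s1 (K + 1) (fun a => if a = 0 then 0 else g (a - Int.sign a) b))
        = fun b => s1 K (fun a => g a b) + g 0 b := by
      funext b
      exact s1_step K (fun a => g a b)
    rw [this, s1_add]
    have h1 := s1_mono_K K (f := fun b => s1 K (fun a => g a b)) (fun b => s1_nonneg _ (fun a => hg0 a b))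
    have h2 := s1_mono_K K (f := fun b => g 0 b) (fun b => hg0 0 b)
    linarith
  have t2 : s1 (K + 1) (fun b => s1 (K + 1) (fun a => if a = 0 then (if b = 0 then 0 else g 0 (b - Int.sign b)) else 0))
      = s1 K (fun b => g 0 b) + g 0 0 := by
    have : (fun b : ℤ => s1 (K + 1) (fun a => if a = 0 then (if b = 0 then 0 else g 0 (b - Int.sign b)) else 0))
        = fun b => if b = 0 then 0 else g 0 (b - Int.sign b) := by
      funext b
      exact s1_ite _ _
    rw [this]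
    exact s1_step K (fun b => g 0 b)
  have t3 : s1 (K + 1) (fun b => s1 (K + 1) (fun a => if b = 0 then 0 else g a (b - Int.sign b)))
      ≥ s1 K (fun b => s1 K (fun a => g a b)) + s1 K (fun a => g a 0) := by
    rw [s1_comm]
    have : (fun a : ℤ => s1 (K + 1) (fun b => if b = 0 then 0 else g a (b - Int.sign b)))
        = fun a => s1 K (fun b => g a b) + g a 0 := by
      funext a
      exact s1_step K (fun b => g a b)
    rw [this, s1_add, s1_comm K (fun a b => g a b)]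
    have h1 := s1_mono_K K (f := fun a => s1 K (fun b => g a b)) (fun a => s1_nonneg _ (fun b => hg0 a b))
    have h2 := s1_mono_K K (f := fun a => g a 0) (fun a => hg0 a 0)
    linarith
  have t4 : s1 (K + 1) (fun b => s1 (K + 1) (fun a => if b = 0 then (if a = 0 then 0 else g (a - Int.sign a) 0) else 0))
      = s1 K (fun a => g a 0) + g 0 0 := by
    rw [s1_comm]
    have : (fun a : ℤ => s1 (K + 1) (fun b => if b = 0 then (if a = 0 then 0 else g (a - Int.sign a) 0) else 0))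
        = fun a => if a = 0 then 0 else g (a - Int.sign a) 0 := by
      funext a
      exact s1_ite _ _
    rw [this]
    exact s1_step K (fun a => g a 0)
  rw [t0, t2, t4]
  linarith

lemma S_rec2 (K : ℕ) (m : Fin 5) (ms : List (Fin 5)) (hK : 2 * ms.length ≤ K) :
    S K ms + 4 + K4 ms (0 - dx m) (0 - dy m) (upd 0 (dy m)) (upd 0 (- dy m)) (upd 0 (dx m)) (upd 0 (- dx m))
      ≤ S (K + 2) (m :: ms) := by
  obtain ⟨g, hg⟩ : ∃ g, g = nx (H dx dy ms) (dx m) (dy m) := ⟨_, rfl⟩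
  refine le_trans ?_ (S_rec1 (K + 1) m ms g hg)
  have g00 : g 0 0 = 1 := by rw [hg]; simp [nx]
  have gge : ∀ a b, H dx dy ms (a - dx m) (b - dy m) ≤ g a b := by
    intro a b
    rw [hg]
    unfold nx
    split_ifs
    · exact H_le _ _ _ _ _
    · exact le_rfl
  have hx := dx_bd m
  have hy := dy_bd m
  have c1 : S K ms ≤ s1 (K + 1) (fun b => s1 (K + 1) (fun a => g a b)) := by
    unfold S
    calc s1 K (fun b => s1 K (fun a => H dx dy ms a b))
        ≤ s1 (K + 1) (fun b => s1 K (fun a => H dx dy ms a (b - dy m))) :=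
          s1_shift K (f := fun b => s1 K (fun a => H dx dy ms a b))
            (fun b => s1_nonneg _ (fun a => H_nonneg _ _ _ _ _)) (dy m) hy.1 hy.2
      _ ≤ s1 (K + 1) (fun b => s1 (K + 1) (fun a => H dx dy ms (a - dx m) (b - dy m))) := by
          refine s1_mono _ (fun b => ?_)
          exact s1_shift K (f := fun a => H dx dy ms a (b - dy m)) (fun a => H_nonneg _ _ _ _ _)
            (dx m) hx.1 hx.2
      _ ≤ _ := s1_mono _ (fun b => s1_mono _ (fun a => gge a b))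
  have c2 : 1 + kA dx dy ms (0 - dx m) (upd 0 (dy m)) + kA dx (fun m => - dy m) ms (0 - dx m) (upd 0 (- dy m))
      ≤ s1 (K + 1) (fun b => g 0 b) := by
    rw [s1_split, g00]
    have d1 := arm0 dx dy dy_bd ms m (0 - dx m) (K + 1) (by omega)
    have d2 := arm0 dx (fun m => - dy m) (fun m => by have := dy_bd m; constructor <;> linarith [this.1, this.2])
      ms m (0 - dx m) (K + 1) (by omega)
    have e1 : ∑ j ∈ Finset.Ioc (0 : ℤ) ((K + 1 : ℕ) : ℤ), g 0 j
        ≥ ∑ j ∈ Finset.Ioc (0 : ℤ) ((K + 1 : ℕ) : ℤ), H dx dy ms (0 - dx m) (j - dy m) :=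
      Finset.sum_le_sum (fun j _ => gge 0 j)
    have e2 : ∑ j ∈ Finset.Ioc (0 : ℤ) ((K + 1 : ℕ) : ℤ), g 0 (-j)
        ≥ ∑ j ∈ Finset.Ioc (0 : ℤ) ((K + 1 : ℕ) : ℤ), H dx (fun m => - dy m) ms (0 - dx m) (j - - dy m) := by
      refine Finset.sum_le_sum (fun j _ => ?_)
      have := gge 0 (-j)
      have e : j - - dy m = -(-j - dy m) := by ring
      rw [e, H_neg]
      exact this
    linarith
  have c3 : 1 + kA dy dx ms (0 - dy m) (upd 0 (dx m)) + kA dy (fun m => - dx m) ms (0 - dy m) (upd 0 (- dx m))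
      ≤ s1 (K + 1) (fun a => g a 0) := by
    rw [s1_split, g00]
    have d1 := arm0 dy dx dx_bd ms m (0 - dy m) (K + 1) (by omega)
    have d2 := arm0 dy (fun m => - dx m) (fun m => by have := dx_bd m; constructor <;> linarith [this.1, this.2])
      ms m (0 - dy m) (K + 1) (by omega)
    have e1 : ∑ j ∈ Finset.Ioc (0 : ℤ) ((K + 1 : ℕ) : ℤ), g j 0
        ≥ ∑ j ∈ Finset.Ioc (0 : ℤ) ((K + 1 : ℕ) : ℤ), H dy dx ms (0 - dy m) (j - dx m) := by
      refine Finset.sum_le_sum (fun j _ => ?_)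
      rw [H_swap]
      exact gge j 0
    have e2 : ∑ j ∈ Finset.Ioc (0 : ℤ) ((K + 1 : ℕ) : ℤ), g (-j) 0
        ≥ ∑ j ∈ Finset.Ioc (0 : ℤ) ((K + 1 : ℕ) : ℤ), H dy (fun m => - dx m) ms (0 - dy m) (j - - dx m) := by
      refine Finset.sum_le_sum (fun j _ => ?_)
      have := gge (-j) 0
      have e : j - - dx m = -(-j - dx m) := by ring
      rw [e, H_neg, H_swap]
      exact this
    linarith
  unfold K4
  linarith

lemma K4_lower (m : Fin 5) (ms : List (Fin 5)) :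
    (2 / 5) * (Real.sqrt ((ms.length : ℝ) / 3) - 4) ≤
      K4 ms (0 - dx m) (0 - dy m) (upd 0 (dy m)) (upd 0 (- dy m)) (upd 0 (dx m)) (upd 0 (- dx m)) := by
  have j := joint ms (0 - dx m) (0 - dy m) (upd 0 (dy m)) (upd 0 (- dy m)) (upd 0 (dx m)) (upd 0 (- dx m))
  have hx := dx_bd m
  have hy := dy_bd m
  have hxy := dxy_bd m
  have a1 := al_surv 0 0 0 (dy m) hy.1 hy.2
  have a2 := al_surv 0 0 0 (dx m) hx.1 hx.2
  have z0 : al 0 0 0 = 0 := by simp [al]
  rw [z0] at a1 a2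
  have b1 := abs_nonneg (|(0 : ℤ)| + |dy m| - |0 - dy m|)
  have b2 := abs_nonneg (|(0 : ℤ)| + |dx m| - |0 - dx m|)
  have a3 : al (0 - dy m) (upd 0 (dy m)) (upd 0 (- dy m)) + al (0 - dx m) (upd 0 (dx m)) (upd 0 (- dx m)) ≤ 2 := by
    linarith
  have a4 : ((al (0 - dy m) (upd 0 (dy m)) (upd 0 (- dy m)) + al (0 - dx m) (upd 0 (dx m)) (upd 0 (- dx m)) : ℤ) : ℝ) ≤ 2 := by
    exact_mod_cast a3
  have l := w_lower ms.length (|0 - dx m| - |0 - dy m| + dsum ms)
  linarith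

/-- the growth function -/
noncomputable def Phi (R : ℕ) : ℝ := (3 / 20) * (((R : ℝ) + 1) * Real.sqrt ((R : ℝ) + 1))

lemma Phi_step (R : ℕ) : Phi (R + 1) ≤ Phi R + (12 / 5 + (2 / 5) * Real.sqrt ((R : ℝ) / 3)) := by
  unfold Phi
  have hR : (0 : ℝ) ≤ R := Nat.cast_nonneg R
  push_cast
  have e : (R : ℝ) + 1 + 1 = R + 2 := by ring
  rw [e]
  obtain ⟨x, hx⟩ : ∃ x, x = Real.sqrt ((R : ℝ) + 2) := ⟨_, rfl⟩
  obtain ⟨y, hy⟩ : ∃ y, y = Real.sqrt ((R : ℝ) + 1) := ⟨_, rfl⟩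
  obtain ⟨s, hs⟩ : ∃ s, s = Real.sqrt ((R : ℝ) / 3) := ⟨_, rfl⟩
  rw [← hx, ← hy, ← hs]
  have hx0 : 0 ≤ x := by rw [hx]; exact Real.sqrt_nonneg _
  have hy0 : 0 < y := by rw [hy]; exact Real.sqrt_pos.mpr (by linarith)
  have hs0 : 0 ≤ s := by rw [hs]; exact Real.sqrt_nonneg _
  have hx2 : x ^ 2 = R + 2 := by rw [hx]; exact Real.sq_sqrt (by linarith)
  have hy2 : y ^ 2 = R + 1 := by rw [hy]; exact Real.sq_sqrt (by linarith)
  have hs2 : s ^ 2 = R / 3 := by rw [hs]; exact Real.sq_sqrt (by positivity)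
  have hyx : y ≤ x := by
    rw [hx, hy]; exact Real.sqrt_le_sqrt (by linarith)
  have e1 : (R : ℝ) + 2 = x ^ 2 := hx2.symm
  have e2 : (R : ℝ) + 1 = y ^ 2 := hy2.symm
  rw [e1, e2]
  have d1 : x ^ 2 - y ^ 2 = 1 := by rw [hx2, hy2]; ring
  have k1 : x ^ 2 * x - y ^ 2 * y ≤ (3 / 2) * x := by
    have hxy : 0 < x + y := by linarith
    have k2 : (x + y) * (x ^ 2 * x - y ^ 2 * y) = x ^ 2 + x * y + y ^ 2 := by
      have : (x + y) * (x ^ 2 * x - y ^ 2 * y) = (x ^ 2 - y ^ 2) * (x ^ 2 + x * y + y ^ 2) := by ring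
      rw [this, d1]; ring
    have k3 : x ^ 2 + x * y + y ^ 2 ≤ (x + y) * ((3 / 2) * x) := by nlinarith
    have k4 : (x + y) * (x ^ 2 * x - y ^ 2 * y) ≤ (x + y) * ((3 / 2) * x) := by rw [k2]; exact k3
    exact le_of_mul_le_mul_left k4 hxy
  have k5 : x ≤ (7 / 4) * s + 3 / 2 := by
    have : x ^ 2 ≤ ((7 / 4) * s + 3 / 2) ^ 2 := by
      rw [hx2]
      have : (R : ℝ) = 3 * s ^ 2 := by rw [hs2]; ring
      rw [this]
      nlinarith
    exact (sq_le_sq₀ hx0 (by positivity)).mp this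
  nlinarith

lemma S_lower (ms : List (Fin 5)) : ∀ K : ℕ, 2 * ms.length ≤ K → Phi ms.length ≤ S K ms := by
  induction ms with
  | nil =>
    intro K _
    have h1 : S K [] = 1 := by
      unfold S
      simp only [H]
      have : (fun b : ℤ => s1 K (fun a => if a = 0 ∧ b = 0 then (1 : ℝ) else 0))
          = fun b => if b = 0 then 1 else 0 := by
        funext b
        by_cases hb : b = 0
        · simp only [hb, and_true, if_true]
          exact s1_ite K 1
        · simp [hb, s1]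
      rw [this, s1_ite]
    rw [h1]
    simp [Phi]
    norm_num
  | cons m ms ih =>
    intro K hK
    rw [List.length_cons] at hK
    obtain ⟨K', rfl⟩ : ∃ K', K = K' + 2 := ⟨K - 2, by omega⟩
    have h1 := S_rec2 K' m ms (by omega)
    have h2 := K4_lower m ms
    have h3 := ih K' (by omega)
    have h4 := Phi_step ms.length
    rw [List.length_cons]
    linarith

end Pool.Agent.Zomb
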