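import Mathlib
import Pool.Agent.Zomb.Plane
import Pool.Agent.Zomb.Game

set_option autoImplicit false
set_option maxHeartbeats 4000000
set_option linter.unusedSectionVars false

namespace Pool.Agent.Zomb

variable {V : Type} [Fintype V] [DecidableEq V]

/-- coordinates on a torus graph -/
structure IsTorus (G : SimpleGraph V) (n : ℕ) (pos : V → ℤ → ℤ → V) : Prop where
  zero : ∀ x, pos x 0 0 = x
  add : ∀ x a b c d, pos (pos x a b) c d = pos x (a + c) (b + d)
  adj : ∀ x y, G.Adj x y ↔ ∃ m : Fin 5, m ≠ 0 ∧ y = pos x (dx m) (dy m)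
  inj : ∀ x a b c d, pos x a b = pos x c d → (n : ℤ) ∣ a - c ∧ (n : ℤ) ∣ b - d

namespace IsTorus

variable {G : SimpleGraph V} {n : ℕ} {pos : V → ℤ → ℤ → V}

lemma walk_rep (hT : IsTorus G n pos) {u x : V} (p : G.Walk u x) :
    ∃ c d : ℤ, u = pos x c d ∧ |c| + |d| ≤ p.length := by
  induction p with
  | nil => exact ⟨0, 0, (hT.zero _).symm, by simp⟩
  | cons h p ih =>
    obtain ⟨c, d, e, hcd⟩ := ih
    obtain ⟨m, _, hm⟩ := (hT.adj _ _).mp h
    refine ⟨c - dx m, d - dy m, ?_, ?_⟩
    · rw [sub_eq_add_neg, sub_eq_add_neg, ← hT.add, ← e, hm, hT.add, add_neg_cancel, add_neg_cancel, hT.zero]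
    · rw [SimpleGraph.Walk.length_cons]
      have h1 := dxy_bd m
      have h2 := abs_sub c (dx m)
      have h3 := abs_sub d (dy m)
      push_cast
      linarith

/-- a move towards the survivor -/
lemma exists_move (c d : ℤ) (h : ¬ (c = 0 ∧ d = 0)) :
    ∃ m : Fin 5, m ≠ 0 ∧ |c + dx m| + |d + dy m| + 1 = |c| + |d| := by
  rcases lt_trichotomy c 0 with hc | hc | hc
  · refine ⟨1, by decide, ?_⟩
    simp only [dx, dy, Matrix.cons_val_one, Matrix.cons_val_zero, add_zero]
    rw [abs_of_neg hc, abs_of_nonpos (by omega)]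
    ring
  · subst hc
    rcases lt_trichotomy d 0 with hd | hd | hd
    · refine ⟨3, by decide, ?_⟩
      simp only [dx, dy]
      simp
      rw [abs_of_neg hd, abs_of_nonpos (by omega)]
      ring
    · exact absurd ⟨rfl, hd⟩ h
    · refine ⟨4, by decide, ?_⟩
      simp only [dx, dy]
      simp
      rw [abs_of_pos hd, abs_of_nonneg (by omega)]
      ring
  · refine ⟨2, by decide, ?_⟩
    simp only [dx, dy]
    simp
    rw [abs_of_pos hc, abs_of_nonneg (by omega)]
    ring

lemma exists_walk (hT : IsTorus G n pos) (x : V) (L : ℕ) : ∀ c d : ℤ, |c| + |d| ≤ L →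
    ∃ p : G.Walk (pos x c d) x, p.length ≤ L := by
  induction L with
  | zero =>
    intro c d h
    have hc : c = 0 := by
      rw [← abs_eq_zero]; have := abs_nonneg c; have := abs_nonneg d; push_cast at h; linarith
    have hd : d = 0 := by
      rw [← abs_eq_zero]; have := abs_nonneg c; have := abs_nonneg d; push_cast at h; linarith
    subst hc; subst hd
    rw [hT.zero]
    exact ⟨SimpleGraph.Walk.nil, le_rfl⟩
  | succ L ih =>
    intro c d h
    by_cases h0 : c = 0 ∧ d = 0
    · obtain ⟨rfl, rfl⟩ := h0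
      rw [hT.zero]
      exact ⟨SimpleGraph.Walk.nil, by simp⟩
    · obtain ⟨m, hm0, hm⟩ := exists_move c d h0
      obtain ⟨p, hp⟩ := ih (c + dx m) (d + dy m) (by push_cast at h; linarith)
      have ha : G.Adj (pos x c d) (pos x (c + dx m) (d + dy m)) := by
        rw [hT.adj]
        exact ⟨m, hm0, (hT.add _ _ _ _ _).symm⟩
      exact ⟨SimpleGraph.Walk.cons ha p, by rw [SimpleGraph.Walk.length_cons]; omega⟩

lemma reach (hT : IsTorus G n pos) (x : V) (c d : ℤ) : G.Reachable (pos x c d) x := by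
  obtain ⟨p, _⟩ := hT.exists_walk x (|c| + |d|).toNat c d (by rw [Int.toNat_of_nonneg (by positivity)])
  exact ⟨p⟩

lemma dist_le (hT : IsTorus G n pos) (x : V) (c d : ℤ) : (G.dist (pos x c d) x : ℤ) ≤ |c| + |d| := by
  obtain ⟨p, hp⟩ := hT.exists_walk x (|c| + |d|).toNat c d (by rw [Int.toNat_of_nonneg (by positivity)])
  have h1 := SimpleGraph.dist_le p
  have h2 : ((|c| + |d|).toNat : ℤ) = |c| + |d| := Int.toNat_of_nonneg (by positivity)
  omega

lemma eq_zero_of_dvd_of_abs {m : ℕ} {z : ℤ} (h : (m : ℤ) ∣ z) (h' : |z| < m) : z = 0 :=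
  Int.eq_zero_of_abs_lt_dvd h h'

/-- lower bound for distances -/
lemma le_dist (hT : IsTorus G n pos) (x : V) (c d L : ℤ) (h : |c| + |d| + L < n)
    (hL : (G.dist (pos x c d) x : ℤ) ≤ L) : |c| + |d| ≤ L := by
  obtain ⟨p, hp⟩ := (hT.reach x c d).exists_walk_length_eq_dist
  obtain ⟨c', d', e, hcd⟩ := hT.walk_rep p
  obtain ⟨h1, h2⟩ := hT.inj _ _ _ _ _ e
  have hp' : (p.length : ℤ) = G.dist (pos x c d) x := by exact_mod_cast hp
  have a1 := abs_sub c c'
  have a2 := abs_sub d d'
  have n1 := abs_nonneg c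
  have n2 := abs_nonneg d
  have n3 := abs_nonneg c'
  have n4 := abs_nonneg d'
  have e1 : c - c' = 0 := eq_zero_of_dvd_of_abs h1 (by linarith)
  have e2 : d - d' = 0 := eq_zero_of_dvd_of_abs h2 (by linarith)
  have e3 : c = c' := by linarith
  have e4 : d = d' := by linarith
  rw [e3, e4]
  linarith

lemma dist_eq (hT : IsTorus G n pos) (x : V) (c d : ℤ) (h : 2 * (|c| + |d|) ≤ n) :
    (G.dist (pos x c d) x : ℤ) = |c| + |d| := by
  refine le_antisymm (hT.dist_le x c d) ?_
  by_contra hc
  push Not at hc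
  have := hT.le_dist x c d (|c| + |d| - 1) (by linarith) (by linarith)
  linarith

lemma mem_closer (hT : IsTorus G n pos) (x : V) (a b : ℤ) (h : 2 * (|a| + |b|) < n) (v : V) :
    v ∈ closer G x (pos x a b) ↔
      ∃ m : Fin 5, m ≠ 0 ∧ |a + dx m| + |b + dy m| + 1 = |a| + |b| ∧ v = pos x (a + dx m) (b + dy m) := by
  classical
  unfold closer
  rw [Finset.mem_filter]
  have hz := hT.dist_eq x a b h.le
  constructor
  · rintro ⟨_, hadj, hd⟩
    obtain ⟨m, hm, e⟩ := (hT.adj _ _).mp hadj
    rw [hT.add] at e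
    subst e
    refine ⟨m, hm, ?_, rfl⟩
    have hd' : (G.dist (pos x (a + dx m) (b + dy m)) x : ℤ) + 1 = |a| + |b| := by
      rw [← hz]; exact_mod_cast hd
    have h1 := dxy_bd m
    have h2 := abs_add_le a (dx m)
    have h3 := abs_add_le b (dy m)
    have h4 := hT.le_dist x (a + dx m) (b + dy m) (|a| + |b| - 1) (by linarith) (by linarith)
    have h5 : |a| ≤ |a + dx m| + |dx m| := by
      have := abs_sub (a + dx m) (dx m)
      rwa [add_sub_cancel_right] at this
    have h6 : |b| ≤ |b + dy m| + |dy m| := by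
      have := abs_sub (b + dy m) (dy m)
      rwa [add_sub_cancel_right] at this
    linarith
  · rintro ⟨m, hm, hn, rfl⟩
    refine ⟨Finset.mem_univ _, ?_, ?_⟩
    · rw [hT.adj]
      exact ⟨m, hm, (hT.add _ _ _ _ _).symm⟩
    · have h1 := hT.dist_eq x (a + dx m) (b + dy m) (by linarith)
      have : (G.dist (pos x (a + dx m) (b + dy m)) x : ℤ) + 1 = G.dist (pos x a b) x := by
        rw [h1, hz, hn]
      exact_mod_cast this

lemma closer_gen (hT : IsTorus G n pos) (x : V) (a b : ℤ) (h : 2 * (|a| + |b|) < n)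
    (ha : a ≠ 0) (hb : b ≠ 0) :
    closer G x (pos x a b) = {pos x (a - Int.sign a) b, pos x a (b - Int.sign b)} := by
  ext v
  rw [hT.mem_closer x a b h, Finset.mem_insert, Finset.mem_singleton]
  have hx : ∀ m : Fin 5, m = 0 ∨ m = 1 ∨ m = 2 ∨ m = 3 ∨ m = 4 := by decide
  constructor
  · rintro ⟨m, hm, hn, rfl⟩
    rcases hx m with rfl | rfl | rfl | rfl | rfl
    · exact absurd rfl hm
    · left
      simp only [dx, dy, Matrix.cons_val_one, Matrix.cons_val_zero, add_zero] at hn ⊢
      have : a < 0 := by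
        by_contra hc
        rw [abs_of_nonneg (by omega : 0 ≤ a + 1), abs_of_nonneg (by omega : 0 ≤ a)] at hn
        omega
      rw [Int.sign_eq_neg_one_of_neg this, sub_neg_eq_add]
    · left
      simp [dx, dy] at hn ⊢
      have : 0 < a := by
        by_contra hc
        rw [abs_of_nonpos (by omega : a + -1 ≤ 0), abs_of_nonpos (by omega : a ≤ 0)] at hn
        omega
      rw [Int.sign_eq_one_of_pos this, sub_eq_add_neg]
    · right
      simp [dx, dy] at hn ⊢
      have : b < 0 := by
        by_contra hc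
        rw [abs_of_nonneg (by omega : 0 ≤ b + 1), abs_of_nonneg (by omega : 0 ≤ b)] at hn
        omega
      rw [Int.sign_eq_neg_one_of_neg this, sub_neg_eq_add]
    · right
      simp [dx, dy] at hn ⊢
      have : 0 < b := by
        by_contra hc
        rw [abs_of_nonpos (by omega : b + -1 ≤ 0), abs_of_nonpos (by omega : b ≤ 0)] at hn
        omega
      rw [Int.sign_eq_one_of_pos this, sub_eq_add_neg]
  · rintro (rfl | rfl)
    · rcases lt_or_gt_of_ne ha with h1 | h1
      · refine ⟨1, by decide, ?_, ?_⟩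
        · simp [dx, dy]
          rw [abs_of_neg h1, abs_of_nonpos (by omega : a + 1 ≤ 0)]
          ring
        · simp [dx, dy, Int.sign_eq_neg_one_of_neg h1]
      · refine ⟨2, by decide, ?_, ?_⟩
        · simp [dx, dy]
          rw [abs_of_pos h1, abs_of_nonneg (by omega : 0 ≤ a + -1)]
          ring
        · simp [dx, dy, Int.sign_eq_one_of_pos h1, sub_eq_add_neg]
    · rcases lt_or_gt_of_ne hb with h1 | h1
      · refine ⟨3, by decide, ?_, ?_⟩
        · simp [dx, dy]
          rw [abs_of_neg h1, abs_of_nonpos (by omega : b + 1 ≤ 0)]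
          ring
        · simp [dx, dy, Int.sign_eq_neg_one_of_neg h1]
      · refine ⟨4, by decide, ?_, ?_⟩
        · simp [dx, dy]
          rw [abs_of_pos h1, abs_of_nonneg (by omega : 0 ≤ b + -1)]
          ring
        · simp [dx, dy, Int.sign_eq_one_of_pos h1, sub_eq_add_neg]

lemma closer_y (hT : IsTorus G n pos) (x : V) (b : ℤ) (h : 2 * (|(0 : ℤ)| + |b|) < n)
    (hb : b ≠ 0) :
    closer G x (pos x 0 b) = {pos x 0 (b - Int.sign b)} := by
  ext v
  rw [hT.mem_closer x 0 b h, Finset.mem_singleton]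
  have hx : ∀ m : Fin 5, m = 0 ∨ m = 1 ∨ m = 2 ∨ m = 3 ∨ m = 4 := by decide
  constructor
  · rintro ⟨m, hm, hn, rfl⟩
    rcases hx m with rfl | rfl | rfl | rfl | rfl
    · exact absurd rfl hm
    · exfalso
      simp [dx, dy] at hn
      have := abs_nonneg b
      omega
    · exfalso
      simp [dx, dy] at hn
      have := abs_nonneg b
      omega
    · simp [dx, dy] at hn ⊢
      have : b < 0 := by
        by_contra hc
        rw [abs_of_nonneg (by omega : 0 ≤ b + 1), abs_of_nonneg (by omega : 0 ≤ b)] at hn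
        omega
      rw [Int.sign_eq_neg_one_of_neg this, sub_neg_eq_add]
    · simp [dx, dy] at hn ⊢
      have : 0 < b := by
        by_contra hc
        rw [abs_of_nonpos (by omega : b + -1 ≤ 0), abs_of_nonpos (by omega : b ≤ 0)] at hn
        omega
      rw [Int.sign_eq_one_of_pos this, sub_eq_add_neg]
  · rintro rfl
    rcases lt_or_gt_of_ne hb with h1 | h1
    · refine ⟨3, by decide, ?_, ?_⟩
      · simp [dx, dy]
        rw [abs_of_neg h1, abs_of_nonpos (by omega : b + 1 ≤ 0)]
        ring
      · simp [dx, dy, Int.sign_eq_neg_one_of_neg h1]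
    · refine ⟨4, by decide, ?_, ?_⟩
      · simp [dx, dy]
        rw [abs_of_pos h1, abs_of_nonneg (by omega : 0 ≤ b + -1)]
        ring
      · simp [dx, dy, Int.sign_eq_one_of_pos h1, sub_eq_add_neg]

lemma closer_x (hT : IsTorus G n pos) (x : V) (a : ℤ) (h : 2 * (|a| + |(0 : ℤ)|) < n)
    (ha : a ≠ 0) :
    closer G x (pos x a 0) = {pos x (a - Int.sign a) 0} := by
  ext v
  rw [hT.mem_closer x a 0 h, Finset.mem_singleton]
  have hx : ∀ m : Fin 5, m = 0 ∨ m = 1 ∨ m = 2 ∨ m = 3 ∨ m = 4 := by decide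
  constructor
  · rintro ⟨m, hm, hn, rfl⟩
    rcases hx m with rfl | rfl | rfl | rfl | rfl
    · exact absurd rfl hm
    · simp only [dx, dy, Matrix.cons_val_one, Matrix.cons_val_zero, add_zero] at hn ⊢
      have : a < 0 := by
        by_contra hc
        rw [abs_of_nonneg (by omega : 0 ≤ a + 1), abs_of_nonneg (by omega : 0 ≤ a)] at hn
        omega
      rw [Int.sign_eq_neg_one_of_neg this, sub_neg_eq_add]
    · simp [dx, dy] at hn ⊢
      have : 0 < a := by
        by_contra hc
        rw [abs_of_nonpos (by omega : a + -1 ≤ 0), abs_of_nonpos (by omega : a ≤ 0)] at hn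
        omega
      rw [Int.sign_eq_one_of_pos this, sub_eq_add_neg]
    · exfalso
      simp [dx, dy] at hn
      have := abs_nonneg a
      omega
    · exfalso
      simp [dx, dy] at hn
      have := abs_nonneg a
      omega
  · rintro rfl
    rcases lt_or_gt_of_ne ha with h1 | h1
    · refine ⟨1, by decide, ?_, ?_⟩
      · simp [dx, dy]
        rw [abs_of_neg h1, abs_of_nonpos (by omega : a + 1 ≤ 0)]
        ring
      · simp [dx, dy, Int.sign_eq_neg_one_of_neg h1]
    · refine ⟨2, by decide, ?_, ?_⟩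
      · simp [dx, dy]
        rw [abs_of_pos h1, abs_of_nonneg (by omega : 0 ≤ a + -1)]
        ring
      · simp [dx, dy, Int.sign_eq_one_of_pos h1, sub_eq_add_neg]

lemma pos_inj (hT : IsTorus G n pos) (x : V) (a b c d : ℤ) (h : |a| + |b| + |c| + |d| < n)
    (e : pos x a b = pos x c d) : a = c ∧ b = d := by
  obtain ⟨h1, h2⟩ := hT.inj _ _ _ _ _ e
  have a1 := abs_sub a c
  have a2 := abs_sub b d
  have n1 := abs_nonneg a
  have n2 := abs_nonneg b
  have n3 := abs_nonneg c
  have n4 := abs_nonneg d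
  have e1 : a - c = 0 := eq_zero_of_dvd_of_abs h1 (by linarith)
  have e2 : b - d = 0 := eq_zero_of_dvd_of_abs h2 (by linarith)
  constructor <;> linarith

lemma sum_step (hT : IsTorus G n pos) (x : V) (a b : ℤ) (h : 2 * (|a| + |b|) < n)
    (h0 : ¬ (a = 0 ∧ b = 0)) (F : V → ℝ) :
    ∑ v, step G x (pos x a b) v * F v
      = (F (pos x (mvX true a b) (mvY true a b)) + F (pos x (mvX false a b) (mvY false a b))) / 2 := by
  rw [sum_step_mul]
  by_cases ha : a = 0
  · have hb : b ≠ 0 := fun hb => h0 ⟨ha, hb⟩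
    subst ha
    rw [hT.closer_y x b h hb]
    simp [mvX, mvY]
  · by_cases hb : b = 0
    · subst hb
      rw [hT.closer_x x a h ha]
      simp [mvX, mvY, ha]
    · rw [hT.closer_gen x a b h ha hb]
      have hne : pos x (a - Int.sign a) b ≠ pos x a (b - Int.sign b) := by
        intro e
        have n1 := abs_nonneg a
        have n2 := abs_nonneg b
        have s1 := abs_sign_step a ha
        have s2 := abs_sign_step b hb
        have := (hT.pos_inj x _ _ _ _ (by rw [s1, s2]; linarith) e).1
        have s3 : Int.sign a ≠ 0 := by simpa using ha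
        omega
      rw [Finset.card_pair hne, Finset.sum_pair hne]
      simp [mvX, mvY, ha, hb]
      ring

lemma mv_norm (c : Bool) (a b : ℤ) (h0 : ¬ (a = 0 ∧ b = 0)) :
    |mvX c a b| + |mvY c a b| + 1 = |a| + |b| := by
  unfold mvX mvY
  split_ifs with h
  · rw [abs_sign_step a h.1]; ring
  · by_cases hb : b = 0
    · subst hb
      have ha : a ≠ 0 := fun ha => h0 ⟨ha, rfl⟩
      exact absurd ⟨ha, Or.inl rfl⟩ h
    · rw [abs_sign_step b hb]; ring

/-- the survivor's moves -/
def actOf (pos : V → ℤ → ℤ → V) (x : V) (m : Fin 5) : V := pos x (dx m) (dy m)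

lemma miss_eq (hT : IsTorus G n pos) (ms : List (Fin 5)) : ∀ (x : V) (a b : ℤ), 2 * (|a| + |b|) < n →
    miss G (actOf pos) x ms (pos x a b) = 1 - H dx dy ms a b := by
  have hx0 : ∀ (x : V) (a b : ℤ), 2 * (|a| + |b|) < n → (pos x a b = x ↔ (a = 0 ∧ b = 0)) := by
    intro x a b h
    constructor
    · intro e
      have n1 := abs_nonneg a
      have n2 := abs_nonneg b
      exact hT.pos_inj x a b 0 0 (by rw [abs_zero]; linarith) (by rw [hT.zero]; exact e)
    · rintro ⟨rfl, rfl⟩
      exact hT.zero x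
  induction ms with
  | nil =>
    intro x a b h
    simp only [miss, H]
    by_cases h0 : a = 0 ∧ b = 0
    · rw [if_pos ((hx0 x a b h).mpr h0), if_pos h0]; norm_num
    · rw [if_neg (fun e => h0 ((hx0 x a b h).mp e)), if_neg h0]; norm_num
  | cons m ms ih =>
    intro x a b h
    simp only [miss, H]
    by_cases h0 : a = 0 ∧ b = 0
    · rw [if_pos ((hx0 x a b h).mpr h0), if_pos h0]; norm_num
    · rw [if_neg (fun e => h0 ((hx0 x a b h).mp e)), if_neg h0]
      rw [hT.sum_step x a b h h0 (fun v => if v = x then 0 else miss G (actOf pos) (actOf pos x m) ms v)]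
      have key : ∀ c, (if pos x (mvX c a b) (mvY c a b) = x then (0 : ℝ) else
          miss G (actOf pos) (actOf pos x m) ms (pos x (mvX c a b) (mvY c a b)))
          = 1 - nx (H dx dy ms) (dx m) (dy m) (mvX c a b) (mvY c a b) := by
        intro c
        have hn := mv_norm c a b h0
        have hmv : 2 * (|mvX c a b| + |mvY c a b|) < n := by linarith
        unfold nx
        by_cases h1 : mvX c a b = 0 ∧ mvY c a b = 0
        · rw [if_pos ((hx0 x _ _ hmv).mpr h1), if_pos h1]; norm_num
        · rw [if_neg (fun e => h1 ((hx0 x _ _ hmv).mp e)), if_neg h1]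
          have e : pos x (mvX c a b) (mvY c a b)
              = pos (actOf pos x m) (mvX c a b - dx m) (mvY c a b - dy m) := by
            unfold actOf
            rw [hT.add]
            congr 1 <;> ring
          rw [e]
          refine ih _ _ _ ?_
          have d1 := dxy_bd m
          have d2 := abs_sub (mvX c a b) (dx m)
          have d3 := abs_sub (mvY c a b) (dy m)
          linarith
      simp only [key]
      ring

lemma act_surj (hT : IsTorus G n pos) (x x' : V) (h : x' = x ∨ G.Adj x x') :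
    ∃ m, x' = actOf pos x m := by
  rcases h with rfl | h
  · exact ⟨0, by simp [actOf, dx, dy, hT.zero]⟩
  · obtain ⟨m, _, hm⟩ := (hT.adj _ _).mp h
    exact ⟨m, hm⟩

lemma sum_miss_le (hT : IsTorus G n pos) (x : V) (ms : List (Fin 5)) (h : 8 * ms.length < n) :
    ∑ z, miss G (actOf pos) x ms z ≤ (Fintype.card V : ℝ) - Phi ms.length := by
  obtain ⟨K, hK⟩ : ∃ K, K = 2 * ms.length := ⟨_, rfl⟩
  have hS := S_lower ms K (by omega)
  have h1 : S K ms ≤ ∑ z, (1 - miss G (actOf pos) x ms z) := by
    unfold S s1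
    rw [← Finset.sum_product']
    have hbox : ∀ p ∈ (Finset.Icc (-(K : ℤ)) K ×ˢ Finset.Icc (-(K : ℤ)) K), |p.2| + |p.1| ≤ 2 * K := by
      intro p hp
      rw [Finset.mem_product, Finset.mem_Icc, Finset.mem_Icc] at hp
      have a1 : |p.1| ≤ K := abs_le.mpr hp.1
      have a2 : |p.2| ≤ K := abs_le.mpr hp.2
      linarith
    have hn : 4 * (K : ℤ) < n := by subst hK; push_cast; omega
    calc ∑ p ∈ Finset.Icc (-(K : ℤ)) K ×ˢ Finset.Icc (-(K : ℤ)) K, H dx dy ms p.2 p.1
        = ∑ p ∈ Finset.Icc (-(K : ℤ)) K ×ˢ Finset.Icc (-(K : ℤ)) K,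
            (1 - miss G (actOf pos) x ms (pos x p.2 p.1)) := by
          refine Finset.sum_congr rfl (fun p hp => ?_)
          rw [hT.miss_eq ms x p.2 p.1 (by have := hbox p hp; linarith)]
          ring
      _ = ∑ z ∈ (Finset.Icc (-(K : ℤ)) K ×ˢ Finset.Icc (-(K : ℤ)) K).image (fun p => pos x p.2 p.1),
            (1 - miss G (actOf pos) x ms z) := by
          rw [Finset.sum_image]
          intro p hp q hq e
          have b1 := hbox p hp
          have b2 := hbox q hq
          obtain ⟨e1, e2⟩ := hT.pos_inj x p.2 p.1 q.2 q.1 (by linarith) e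
          exact Prod.ext e2 e1
      _ ≤ ∑ z, (1 - miss G (actOf pos) x ms z) := by
          refine Finset.sum_le_sum_of_subset_of_nonneg (Finset.subset_univ _) (fun z _ _ => ?_)
          have := (miss_bd G (actOf pos) ms x z).2
          linarith
  rw [Finset.sum_sub_distrib] at h1
  simp only [Finset.sum_const, Finset.card_univ, nsmul_eq_mul, mul_one] at h1
  linarith

/-- The upper bound for the survival probability on a torus. -/
lemma survProb_bound (hT : IsTorus G n pos) {k : ℕ} (σ : Strategy V k) (T : ℕ) (h : 8 * T < n) :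
    survProb G σ T ≤ (Fintype.card V : ℝ) * 5 ^ T *
      (((Fintype.card V : ℝ) - Phi T) / Fintype.card V) ^ k := by
  refine survProb_le G (actOf pos) (fun x x' hx => hT.act_surj x x' hx) σ T _ ?_
  intro x ms hms
  have := hT.sum_miss_le x ms (by omega)
  rwa [hms] at this

end IsTorus

end Pool.Agent.Zomb
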