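import Mathlib
import Pool.Agent.Zomb.Torus

set_option autoImplicit false
set_option maxHeartbeats 4000000

namespace Pool.Agent.Zomb

/-- The toroidal `n × n` grid `C_n □ C_n`. -/
def torus (n : ℕ) : SimpleGraph (Fin n × Fin n) :=
  (SimpleGraph.cycleGraph n).boxProd (SimpleGraph.cycleGraph n)

/-- the cycle, on `ZMod` -/
def cyc (m : ℕ) : SimpleGraph (ZMod (m + 3)) := SimpleGraph.cycleGraph (m + 3)

lemma cyc_adj (m : ℕ) (u v : ZMod (m + 3)) : (cyc m).Adj u v ↔ u - v = 1 ∨ v - u = 1 := Iff.rfl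

/-- translation on the torus -/
def tpos (m : ℕ) (x : ZMod (m + 3) × ZMod (m + 3)) (a b : ℤ) : ZMod (m + 3) × ZMod (m + 3) :=
  (x.1 + (a : ZMod (m + 3)), x.2 + (b : ZMod (m + 3)))

lemma torusZ_isTorus (m : ℕ) : IsTorus ((cyc m).boxProd (cyc m)) (m + 3) (tpos m) where
  zero := by
    intro x
    simp [tpos]
  add := by
    intro x a b c d
    simp [tpos, add_assoc]
  adj := by
    intro x y
    have hx : ∀ m : Fin 5, m = 0 ∨ m = 1 ∨ m = 2 ∨ m = 3 ∨ m = 4 := by decide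
    obtain ⟨x1, x2⟩ := x
    obtain ⟨y1, y2⟩ := y
    rw [SimpleGraph.boxProd_adj]
    simp only [cyc_adj, tpos, Prod.mk.injEq]
    constructor
    · rintro (⟨h | h, e⟩ | ⟨h | h, e⟩)
      · refine ⟨2, by decide, ?_, ?_⟩
        · simp [dx]; rw [← h]; ring
        · simp [dy]; exact e.symm
      · refine ⟨1, by decide, ?_, ?_⟩
        · simp [dx]; rw [← h]; ring
        · simp [dy]; exact e.symm
      · refine ⟨4, by decide, ?_, ?_⟩
        · simp [dx]; exact e.symm
        · simp [dy]; rw [← h]; ring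
      · refine ⟨3, by decide, ?_, ?_⟩
        · simp [dx]; exact e.symm
        · simp [dy]; rw [← h]; ring
    · rintro ⟨i, hi, e1, e2⟩
      rcases hx i with rfl | rfl | rfl | rfl | rfl
      · exact absurd rfl hi
      · left
        simp [dx, dy] at e1 e2
        subst e1; subst e2
        exact ⟨Or.inr (by ring), rfl⟩
      · left
        simp [dx, dy] at e1 e2
        subst e1; subst e2
        exact ⟨Or.inl (by ring), rfl⟩
      · right
        simp [dx, dy] at e1 e2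
        subst e1; subst e2
        exact ⟨Or.inr (by ring), rfl⟩
      · right
        simp [dx, dy] at e1 e2
        subst e1; subst e2
        exact ⟨Or.inl (by ring), rfl⟩
  inj := by
    intro x a b c d e
    simp only [tpos, Prod.mk.injEq, add_right_inj] at e
    obtain ⟨e3, e4⟩ := e
    rw [eq_comm, ZMod.intCast_eq_intCast_iff_dvd_sub] at e3 e4
    exact ⟨e3, e4⟩

lemma torus_isTorus (m : ℕ) : IsTorus (torus (m + 3)) (m + 3) (tpos m) := torusZ_isTorus m

lemma real_estimate (n : ℕ) (hn : 3 ≤ n) :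
    ∃ k : ℕ, (k : ℝ) ≤ 341 * (n : ℝ) ^ (3 / 2 : ℝ) ∧
      ((n : ℝ) * n) * 5 ^ ((n - 1) / 8) * ((((n : ℝ) * n) - Phi ((n - 1) / 8)) / ((n : ℝ) * n)) ^ k ≤ 1 / 2 := by
  obtain ⟨T, hT⟩ : ∃ T, T = (n - 1) / 8 := ⟨_, rfl⟩
  rw [← hT]
  have hn3 : (3 : ℝ) ≤ n := by exact_mod_cast hn
  have hn0 : (0 : ℝ) < n := by linarith
  obtain ⟨r, hr⟩ : ∃ r, r = Real.sqrt (n : ℝ) := ⟨_, rfl⟩
  have hr0 : 0 < r := by rw [hr]; exact Real.sqrt_pos.mpr hn0
  have hr2 : r ^ 2 = n := by rw [hr]; exact Real.sq_sqrt hn0.le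
  have hr1 : 1 ≤ r := by
    rw [hr]; exact Real.one_le_sqrt.mpr (by linarith)
  have hpow : (n : ℝ) ^ (3 / 2 : ℝ) = n * r := by
    have : (3 / 2 : ℝ) = 1 + 1 / 2 := by norm_num
    rw [this, Real.rpow_add hn0, Real.rpow_one, hr, Real.sqrt_eq_rpow]
  rw [hpow]
  have hT8 : (n : ℝ) / 8 ≤ (T : ℝ) + 1 := by
    have : n ≤ 8 * (T + 1) := by omega
    have : (n : ℝ) ≤ 8 * ((T : ℝ) + 1) := by exact_mod_cast this
    linarith
  have hT8' : (T : ℝ) ≤ n / 8 := by
    have : 8 * T ≤ n := by omega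
    have : 8 * (T : ℝ) ≤ n := by exact_mod_cast this
    linarith
  -- lower bound on Phi
  have hPhi : (3 / 20) * ((n : ℝ) / 8) * (r / (283 / 100)) ≤ Phi T := by
    unfold Phi
    have h1 : r / (283 / 100) ≤ Real.sqrt ((T : ℝ) + 1) := by
      apply Real.le_sqrt_of_sq_le
      rw [div_pow, hr2]
      calc (n : ℝ) / (283 / 100) ^ 2 ≤ n / 8 := by
            apply div_le_div_of_nonneg_left hn0.le (by norm_num) (by norm_num)
        _ ≤ _ := hT8
    have h2 : ((n : ℝ) / 8) * (r / (283 / 100)) ≤ ((T : ℝ) + 1) * Real.sqrt ((T : ℝ) + 1) :=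
      mul_le_mul hT8 h1 (by positivity) (by positivity)
    linarith
  obtain ⟨P, hP⟩ : ∃ P, P = Phi T := ⟨_, rfl⟩
  rw [← hP] at hPhi ⊢
  obtain ⟨N, hN⟩ : ∃ N : ℝ, N = (n : ℝ) * n := ⟨_, rfl⟩
  rw [← hN]
  have hN0 : 0 < N := by rw [hN]; positivity
  have hPN : P ≤ N := by
    rw [hP, hN]
    unfold Phi
    have h1 : (T : ℝ) + 1 ≤ n := by
      have : T + 1 ≤ n := by omega
      exact_mod_cast this
    have h2 : Real.sqrt ((T : ℝ) + 1) ≤ n := by
      rw [Real.sqrt_le_left (by linarith)]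
      nlinarith
    have h3 : ((T : ℝ) + 1) * Real.sqrt ((T : ℝ) + 1) ≤ n * n :=
      mul_le_mul h1 h2 (Real.sqrt_nonneg _) hn0.le
    nlinarith
  refine ⟨⌈340 * (n * r)⌉₊, ?_, ?_⟩
  · have h1 := (Nat.ceil_lt_add_one (a := 340 * ((n : ℝ) * r)) (by positivity)).le
    have h2 : 1 ≤ (n : ℝ) * r := by nlinarith
    linarith
  · set k := ⌈340 * ((n : ℝ) * r)⌉₊ with hk
    have hk1 : 340 * ((n : ℝ) * r) ≤ k := Nat.le_ceil _
    have e1 : (N - P) / N ≤ Real.exp (-(P / N)) := by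
      have : (N - P) / N = 1 - P / N := by field_simp
      rw [this]
      linarith [Real.add_one_le_exp (-(P / N))]
    have e2 : ((N - P) / N) ^ k ≤ Real.exp (-(9 / 4 * n)) := by
      calc ((N - P) / N) ^ k ≤ (Real.exp (-(P / N))) ^ k :=
            pow_le_pow_left₀ (div_nonneg (by linarith) hN0.le) e1 k
        _ = Real.exp (k * (-(P / N))) := by rw [← Real.exp_nat_mul]
        _ ≤ Real.exp (-(9 / 4 * n)) := by
            apply Real.exp_le_exp.mpr
            have h3 : 9 / 4 * (n : ℝ) ≤ k * (P / N) := by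
              rw [← mul_div_assoc, le_div_iff₀ hN0]
              have h4 : 340 * ((n : ℝ) * r) * ((3 / 20) * ((n : ℝ) / 8) * (r / (283 / 100))) ≤ k * P :=
                mul_le_mul hk1 hPhi (by positivity) (by positivity)
              refine le_trans ?_ h4
              rw [hN]
              have : 340 * ((n : ℝ) * r) * ((3 / 20) * ((n : ℝ) / 8) * (r / (283 / 100)))
                = (340 * (3 / 20) / 8 / (283 / 100)) * (n * n * r ^ 2) := by ring
              rw [this, hr2]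
              have h5 : 0 ≤ (n : ℝ) * n * n := by positivity
              nlinarith
            linarith
    have e3 : N * 5 ^ T * 2 ≤ Real.exp (9 / 4 * n) := by
      have a1 : N * 2 ≤ Real.exp (2 * n) := by
        have b1 : (n : ℝ) / 2 + 1 ≤ Real.exp (n / 2) := Real.add_one_le_exp _
        have b2 : Real.exp (2 * n) = (Real.exp ((n : ℝ) / 2)) ^ 4 := by
          rw [← Real.exp_nat_mul]; congr 1; push_cast; ring
        rw [b2]
        have b3 : ((n : ℝ) / 2 + 1) ^ 4 ≤ (Real.exp ((n : ℝ) / 2)) ^ 4 :=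
          pow_le_pow_left₀ (by positivity) b1 4
        refine le_trans ?_ b3
        have b4 : 2 * (n : ℝ) ≤ ((n : ℝ) / 2 + 1) ^ 2 := by nlinarith [sq_nonneg ((n : ℝ) / 2 - 1)]
        have b5 : (2 * (n : ℝ)) ^ 2 ≤ (((n : ℝ) / 2 + 1) ^ 2) ^ 2 := pow_le_pow_left₀ (by positivity) b4 2
        have b6 : (((n : ℝ) / 2 + 1) ^ 2) ^ 2 = ((n : ℝ) / 2 + 1) ^ 4 := by ring
        rw [b6] at b5
        refine le_trans ?_ b5
        rw [hN]
        nlinarith
      have a2 : (5 : ℝ) ^ T ≤ Real.exp (n / 4) := by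
        have c1 : (5 : ℝ) ≤ Real.exp 2 := by
          have := Real.exp_one_gt_d9
          have c2 : Real.exp 2 = Real.exp 1 * Real.exp 1 := by rw [← Real.exp_add]; norm_num
          rw [c2]
          nlinarith
        calc (5 : ℝ) ^ T ≤ (Real.exp 2) ^ T := pow_le_pow_left₀ (by norm_num) c1 T
          _ = Real.exp (T * 2) := by rw [← Real.exp_nat_mul]
          _ ≤ Real.exp (n / 4) := Real.exp_le_exp.mpr (by linarith)
      have a3 : Real.exp (9 / 4 * n) = Real.exp (2 * n) * Real.exp (n / 4) := by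
        rw [← Real.exp_add]; congr 1; ring
      rw [a3]
      calc N * 5 ^ T * 2 = (N * 2) * 5 ^ T := by ring
        _ ≤ Real.exp (2 * n) * Real.exp (n / 4) := mul_le_mul a1 a2 (by positivity) (by positivity)
    have e4 : Real.exp (-(9 / 4 * (n : ℝ))) * Real.exp (9 / 4 * n) = 1 := by
      rw [← Real.exp_add]; simp
    have e5 : 0 < Real.exp (-(9 / 4 * (n : ℝ))) := Real.exp_pos _
    have e6 : 0 ≤ N * 5 ^ T := by positivity
    calc N * 5 ^ T * ((N - P) / N) ^ k ≤ N * 5 ^ T * Real.exp (-(9 / 4 * n)) :=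
          mul_le_mul_of_nonneg_left e2 e6
      _ = (N * 5 ^ T * 2) * Real.exp (-(9 / 4 * n)) / 2 := by ring
      _ ≤ (Real.exp (9 / 4 * n)) * Real.exp (-(9 / 4 * n)) / 2 := by
          have := mul_le_mul_of_nonneg_right e3 e5.le
          linarith
      _ = 1 / 2 := by rw [mul_comm, e4]

theorem upper (n : ℕ) (hn : 3 ≤ n) :
    sVal (torus n) (zombieNumber (torus n)) ≤ 1 / 2 ∧
      (zombieNumber (torus n) : ℝ) ≤ 341 * (n : ℝ) ^ (3 / 2 : ℝ) := by
  obtain ⟨k, hk1, hk2⟩ := real_estimate n hn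
  have h : sVal (torus n) k ≤ 1 / 2 := by
    obtain ⟨m, rfl⟩ : ∃ m, n = m + 3 := ⟨n - 3, by omega⟩
    refine sVal_le (torus (m + 3)) k (1 / 2) ((m + 3 - 1) / 8) (fun σ => ?_)
    refine le_trans ((torus_isTorus m).survProb_bound σ ((m + 3 - 1) / 8) (by omega)) ?_
    have hc : (Fintype.card (Fin (m + 3) × Fin (m + 3)) : ℝ) = ((m + 3 : ℕ) : ℝ) * ((m + 3 : ℕ) : ℝ) := by
      rw [Fintype.card_prod, Fintype.card_fin]
      push_cast
      ring
    rw [hc]
    exact hk2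
  obtain ⟨h1, h2⟩ := zombieNumber_spec (torus n) k h
  refine ⟨h2, le_trans ?_ hk1⟩
  exact_mod_cast h1

end Pool.Agent.Zomb
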